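import Mathlib

/-!
From a dense graph of passing pairs to a choice of nodes with many common neighbours.
-/

set_option autoImplicit false

namespace Pool.Agent.Lib.MP_45faa6_lc.DP

open Finset

theorem card_bad {T : Type} [Fintype T] [DecidableEq T] {β : ℝ} (k l : ℕ)
    (I : Finset (Fin k)) (U : Finset T) (hU : (U.card : ℝ) ≤ β * Fintype.card T) :
    ((Fintype.piFinset fun p : Fin k × Fin l => if p.1 ∈ I then U else univ).card : ℝ) ≤
      (Fintype.card T : ℝ) ^ (k * l) * β ^ (I.card * l) := by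
  rw [Fintype.card_piFinset]
  push_cast
  have h1 : ∏ p : Fin k × Fin l, (((if p.1 ∈ I then U else univ).card : ℕ) : ℝ) ≤
      ∏ p : Fin k × Fin l, ((Fintype.card T : ℝ) * if p.1 ∈ I then β else 1) := by
    refine prod_le_prod (fun _ _ => Nat.cast_nonneg _) fun p _ => ?_
    split_ifs
    · linarith
    · simp
  refine h1.trans (le_of_eq ?_)
  rw [prod_mul_distrib, prod_const, card_univ, Fintype.card_prod, Fintype.card_fin,
    Fintype.card_fin, Fintype.prod_prod_type]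
  congr 1
  have h2 : ∀ x : Fin k, ∏ _y : Fin l, (if x ∈ I then β else 1) = (if x ∈ I then β else 1) ^ l :=
    fun x => by rw [prod_const, card_univ, Fintype.card_fin]
  rw [prod_congr rfl fun x _ => h2 x, prod_pow, prod_ite_mem, univ_inter, prod_const, ← pow_mul]

theorem disp (c : ℕ) (hc : 2 ≤ c) :
    ∃ c₀ : ℕ, ∀ (T : Type) [Fintype T] (k r : ℕ), 0 < r → k < Fintype.card T →
      ∃ S : Fin k × Fin (c₀ * Fintype.card T / r + 1) → T, ∀ I : Finset (Fin k), r ≤ #I →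
        ∀ A : Finset T, Fintype.card T ≤ c * #A → ∃ i ∈ I, ∃ t, S (i, t) ∈ A := by
  classical
  have hc' : (2 : ℝ) ≤ c := by exact_mod_cast hc
  obtain ⟨β, hβ⟩ : ∃ β : ℝ, β = 1 - 1 / c := ⟨_, rfl⟩
  have h0 : 0 < β := by
    rw [hβ, sub_pos, div_lt_one (by linarith)]
    linarith
  have h1 : β < 1 := hβ ▸ sub_lt_self _ (by positivity)
  obtain ⟨c₀, hc₀⟩ := exists_pow_lt_of_lt_one (show (0 : ℝ) < 1 / 4 by norm_num) h1
  refine ⟨c₀, fun T _ k r hr hk => ?_⟩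
  have hM : (0 : ℝ) < Fintype.card T := Nat.cast_pos.2 (by omega)
  set M := Fintype.card T with hMd
  set l := c₀ * M / r + 1 with hl
  have hrl : c₀ * M ≤ r * l := (Nat.lt_mul_div_succ _ hr).le
  let P : Finset (Finset (Fin k) × Finset T) :=
    univ.filter fun p => r ≤ p.1.card ∧ (p.2.card : ℝ) ≤ β * M
  let B : Finset (Fin k × Fin l → T) := P.biUnion fun q =>
    Fintype.piFinset fun p : Fin k × Fin l => if p.1 ∈ q.1 then q.2 else univ
  have hB : (B.card : ℝ) < (M : ℝ) ^ (k * l) := by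
    have e1 : (B.card : ℝ) ≤ ∑ q ∈ P, ((Fintype.piFinset fun p : Fin k × Fin l =>
        if p.1 ∈ q.1 then q.2 else univ).card : ℝ) := by
      exact_mod_cast card_biUnion_le
    have e2 : ∀ q ∈ P, ((Fintype.piFinset fun p : Fin k × Fin l =>
        if p.1 ∈ q.1 then q.2 else univ).card : ℝ) ≤ (M : ℝ) ^ (k * l) * (1 / 4) ^ M := by
      intro q hq
      obtain ⟨hq1, hq2⟩ := (mem_filter.1 hq).2
      refine (card_bad k l q.1 q.2 hq2).trans ?_
      gcongr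
      calc β ^ (q.1.card * l) ≤ β ^ (c₀ * M) :=
            pow_le_pow_of_le_one h0.le h1.le (hrl.trans (Nat.mul_le_mul_right _ hq1))
        _ = (β ^ c₀) ^ M := pow_mul _ _ _
        _ ≤ _ := by gcongr
    have e3 : (P.card : ℝ) ≤ 2 ^ k * 2 ^ M := by
      have := card_le_univ P
      rw [Fintype.card_prod, Fintype.card_finset, Fintype.card_finset, Fintype.card_fin] at this
      exact_mod_cast this
    have e4 := e1.trans (sum_le_card_nsmul _ _ _ e2)
    rw [nsmul_eq_mul] at e4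
    have e5 : (2 : ℝ) ^ k * 2 ^ M * (1 / 4) ^ M < 1 := by
      have : (2 : ℝ) ^ k < 2 ^ M := pow_lt_pow_right₀ one_lt_two hk
      have e : (2 : ℝ) ^ M * 2 ^ M * (1 / 4) ^ M = 1 := by
        rw [← mul_pow, ← mul_pow]
        norm_num
      calc (2 : ℝ) ^ k * 2 ^ M * (1 / 4) ^ M < 2 ^ M * 2 ^ M * (1 / 4) ^ M := by gcongr
        _ = 1 := e
    have e6 : (0 : ℝ) < (M : ℝ) ^ (k * l) := by positivity
    calc (B.card : ℝ) ≤ 2 ^ k * 2 ^ M * ((M : ℝ) ^ (k * l) * (1 / 4) ^ M) :=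
          e4.trans (by gcongr)
      _ = (2 ^ k * 2 ^ M * (1 / 4) ^ M) * (M : ℝ) ^ (k * l) := by ring
      _ < 1 * (M : ℝ) ^ (k * l) := by gcongr
      _ = _ := one_mul _
  have hB' : B.card < (univ : Finset (Fin k × Fin l → T)).card := by
    rw [card_univ, Fintype.card_fun, Fintype.card_prod, Fintype.card_fin, Fintype.card_fin]
    exact_mod_cast hB
  obtain ⟨f, -, hf⟩ := exists_mem_notMem_of_card_lt_card hB'
  refine ⟨f, fun I hI A hA => by_contra fun hcon => ?_⟩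
  refine hf (mem_biUnion.2 ⟨(I, Aᶜ), mem_filter.2 ⟨mem_univ _, hI, ?_⟩, ?_⟩)
  · have h2 : (#Aᶜ : ℝ) + #A = M := by exact_mod_cast card_compl_add_card A
    have h3 : (M : ℝ) / c ≤ #A := by
      rw [div_le_iff₀' (by linarith)]
      exact_mod_cast hA
    rw [hβ, sub_mul, one_mul, one_div_mul_eq_div]
    linarith
  · refine Fintype.mem_piFinset.2 fun p => ?_
    split_ifs with hp
    · exact mem_compl.2 fun h => hcon ⟨p.1, hp, p.2, h⟩
    · exact mem_univ _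

variable {ι τ Ω : Type} [Fintype ι] [Fintype τ] [Fintype Ω] [DecidableEq ι] [DecidableEq τ]
  [DecidableEq Ω]

theorem balanced (S : ι × τ → Ω) (r c : ℕ) (hS : ∀ I : Finset ι, r ≤ #I →
      ∀ A : Finset Ω, Fintype.card Ω ≤ c * #A → ∃ i ∈ I, ∃ t, S (i, t) ∈ A)
    (U : Finset ι) (hU : 2 * r < #U) :
    ∃ T : Finset (ι × τ), (∀ x ∈ T, x.1 ∈ U) ∧
      (∀ i, #{x ∈ T | x.1 = i} ≤ 2 * Fintype.card Ω / #U + 1) ∧
      c * #(T.image S)ᶜ < Fintype.card Ω := by
  classical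
  obtain ⟨D, hD⟩ : ∃ D, D = 2 * Fintype.card Ω / #U + 1 := ⟨_, rfl⟩
  obtain ⟨T, hT, hmax⟩ := exists_max_image (univ.filter fun T : Finset (ι × τ) =>
    (∀ x ∈ T, x.1 ∈ U) ∧ Set.InjOn S T ∧ ∀ i, #{x ∈ T | x.1 = i} ≤ D) card ⟨∅, by simp⟩
  obtain ⟨t1, t2, t3⟩ := (mem_filter.1 hT).2
  refine ⟨T, t1, hD ▸ t3, not_le.1 fun hA => ?_⟩
  have h1 : #{i ∈ U | #{x ∈ T | x.1 = i} < D} < r := not_le.1 fun h => by
    obtain ⟨i, hi, t, ht⟩ := hS _ h _ hA
    obtain ⟨h2, h3⟩ := mem_filter.1 hi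
    have h4 : ∀ x ∈ T, S x ≠ S (i, t) := fun x hx h5 =>
      mem_compl.1 ht (mem_image.2 ⟨x, hx, h5⟩)
    have h5 : (i, t) ∉ T := fun h5 => h4 _ h5 rfl
    have h6 := hmax (insert (i, t) T) (mem_filter.2 ⟨mem_univ _, fun x hx => ?_, ?_, fun j => ?_⟩)
    · rw [card_insert_of_notMem h5] at h6
      omega
    · rcases mem_insert.1 hx with rfl | hx
      exacts [h2, t1 x hx]
    · rw [coe_insert]
      refine (Set.injOn_insert h5).2 ⟨t2, ?_⟩
      rintro ⟨x, hx, h7⟩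
      exact h4 x hx h7
    · rw [filter_insert]
      split_ifs with h7
      · obtain rfl : i = j := h7
        exact (card_insert_le _ _).trans h3
      · exact t3 j
  have h2 := card_filter_add_card_filter_not (s := U) fun i => #{x ∈ T | x.1 = i} < D
  have h3 : #{i ∈ U | ¬#{x ∈ T | x.1 = i} < D} * D ≤ #T := by
    rw [card_eq_sum_card_fiberwise (f := Prod.fst) (s := T) (t := U) fun x hx => t1 x hx,
      ← smul_eq_mul]
    exact (card_nsmul_le_sum _ _ _ fun i hi => not_lt.1 (mem_filter.1 hi).2).trans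
      (sum_le_sum_of_subset (filter_subset _ _))
  have h4 : #T ≤ Fintype.card Ω := (card_image_of_injOn t2).symm.trans_le (card_le_univ _)
  have h5 : 2 * Fintype.card Ω < #U * D := hD ▸ Nat.lt_mul_div_succ _ (by omega)
  have h6 : #U * D ≤ 2 * #{i ∈ U | ¬#{x ∈ T | x.1 = i} < D} * D :=
    Nat.mul_le_mul_right _ (by omega)
  rw [mul_assoc] at h6
  omega

omit [DecidableEq ι] in
theorem one_vertex (G : ι → ι → Prop) [DecidableRel G] (r c : ℕ)
    (h : (c + 2) * r * Fintype.card ι ^ 3 < #{p : ι × ι | G p.1 p.2} ^ 2) :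
    ∃ l, c * #{p : ι × ι | (G p.1 l ∧ G p.2 l) ∧ #{l' | G p.1 l' ∧ G p.2 l'} < r} +
      2 * r * Fintype.card ι < #{i | G i l} ^ 2 := by
  by_contra hn
  have h1 := sum_le_sum (s := univ) fun l _ => not_lt.1 fun h1 => hn ⟨l, h1⟩
  have h2 : #{p : ι × ι | G p.1 p.2} = ∑ l, #{i | G i l} := by
    simp only [card_filter]
    rw [Fintype.sum_prod_type, sum_comm]
  have h3 : ∑ l, #{p : ι × ι | (G p.1 l ∧ G p.2 l) ∧ #{l' | G p.1 l' ∧ G p.2 l'} < r} ≤
      Fintype.card ι ^ 2 * r := by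
    have h4 : ∀ p : ι × ι, #{l | (G p.1 l ∧ G p.2 l) ∧ #{l' | G p.1 l' ∧ G p.2 l'} < r} ≤ r :=
      fun p => by
        by_cases h5 : #{l' | G p.1 l' ∧ G p.2 l'} < r
        · simpa only [h5, and_true] using h5.le
        · simp only [h5, and_false, filter_false, card_empty, zero_le]
    calc _ = ∑ p : ι × ι, #{l | (G p.1 l ∧ G p.2 l) ∧ #{l' | G p.1 l' ∧ G p.2 l'} < r} := by
          simp only [card_filter (fun _ => _ ∧ _ < r)]
          exact sum_comm
      _ ≤ _ := (sum_le_card_nsmul _ _ _ fun p _ => h4 p).trans_eq (by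
          rw [card_univ, Fintype.card_prod, smul_eq_mul, sq])
  have h5 := sq_sum_le_card_mul_sum_sq (s := univ) (f := fun l => #{i | G i l})
  rw [sum_add_distrib, ← mul_sum, sum_const, card_univ, smul_eq_mul] at h1
  rw [← h2, card_univ, Nat.cast_id] at h5
  refine absurd (h5.trans (Nat.mul_le_mul_left _ (h1.trans
    (Nat.add_le_add_right (Nat.mul_le_mul_left _ h3) _)))) (not_le.2 (lt_of_eq_of_lt ?_ h))
  ring

theorem amp_core [Nonempty τ] (S : ι × τ → Ω) (r c : ℕ) (hS : ∀ I : Finset ι, r ≤ #I →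
      ∀ A : Finset Ω, Fintype.card Ω ≤ c * #A → ∃ i ∈ I, ∃ t, S (i, t) ∈ A)
    (hk : Fintype.card ι ≤ Fintype.card Ω) (G : ι → ι → Prop) [DecidableRel G]
    (h : (c + 2) * r * Fintype.card ι ^ 3 < #{p : ι × ι | G p.1 p.2} ^ 2) :
    ∃ (f : Ω → ι × τ) (E : Finset (Ω × Ω)), c * #E ≤ 11 * Fintype.card Ω ^ 2 ∧
      ∀ a b, (a, b) ∉ E → S (f a) = a ∧ S (f b) = b ∧ r ≤ #{l | G (f a).1 l ∧ G (f b).1 l} := by
  obtain ⟨l, hl⟩ := one_vertex G r c h
  obtain ⟨U, hU⟩ : ∃ U : Finset ι, U = univ.filter fun i => G i l := ⟨_, rfl⟩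
  obtain ⟨B, hB⟩ : ∃ B : Finset (ι × ι), B = univ.filter fun p : ι × ι =>
    (G p.1 l ∧ G p.2 l) ∧ #{l' | G p.1 l' ∧ G p.2 l'} < r := ⟨_, rfl⟩
  rw [← hU, ← hB] at hl
  have u1 := card_le_univ U
  have u2 : 2 * r < #U := Nat.lt_of_mul_lt_mul_right (a := Fintype.card ι)
    (lt_of_le_of_lt (Nat.le_add_left _ _) (hl.trans_le (sq (#U) ▸ Nat.mul_le_mul_left _ u1)))
  obtain ⟨T, t1, t2, t3⟩ := balanced S r c hS U u2
  obtain ⟨D, hD⟩ : ∃ D, D = 2 * Fintype.card Ω / #U + 1 := ⟨_, rfl⟩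
  rw [← hD] at t2
  have : Nonempty (ι × τ) := ⟨(l, Classical.arbitrary τ)⟩
  choose! f f1 f2 using fun a (ha : a ∈ T.image S) => mem_image.1 ha
  have g1 : ∀ x ∈ T, G x.1 l := fun x hx => by simpa [hU] using t1 x hx
  obtain ⟨Y, hY⟩ : ∃ Y : Finset ((ι × τ) × ι × τ), Y = (T ×ˢ T).filter fun p =>
    #{l' | G p.1.1 l' ∧ G p.2.1 l'} < r := ⟨_, rfl⟩
  have y1 : #Y ≤ D * D * #B := by
    refine card_le_mul_card_image_of_maps_to (f := fun p => (p.1.1, p.2.1)) (fun p hp => ?_) _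
      fun q _ => ?_
    · obtain ⟨h1, h2⟩ := mem_filter.1 (hY ▸ hp)
      exact hB ▸ mem_filter.2
        ⟨mem_univ _, ⟨g1 _ (mem_product.1 h1).1, g1 _ (mem_product.1 h1).2⟩, h2⟩
    · refine (card_le_card (t := {x ∈ T | x.1 = q.1} ×ˢ {x ∈ T | x.1 = q.2}) fun p hp => ?_).trans
        ((card_product _ _).trans_le (Nat.mul_le_mul (t2 _) (t2 _)))
      obtain ⟨h1, h2⟩ := mem_filter.1 hp
      obtain ⟨h3, h4⟩ := mem_product.1 (mem_filter.1 (hY ▸ h1)).1
      exact mem_product.2 ⟨mem_filter.2 ⟨h3, congrArg Prod.fst h2⟩,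
        mem_filter.2 ⟨h4, congrArg Prod.snd h2⟩⟩
  refine ⟨f, (T.image S)ᶜ ×ˢ univ ∪ univ ×ˢ (T.image S)ᶜ ∪ Y.image fun p => (S p.1, S p.2), ?_,
    fun a b hab => ?_⟩
  · have h1 : D * #U ≤ 3 * Fintype.card Ω := by
      have := Nat.div_mul_le_self (2 * Fintype.card Ω) #U
      rw [hD, add_mul]
      omega
    have h2 : c * #Y ≤ 9 * Fintype.card Ω ^ 2 :=
      calc c * #Y ≤ c * (D * D * #B) := Nat.mul_le_mul_left _ y1
        _ = D * D * (c * #B) := by ring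
        _ ≤ D * D * #U ^ 2 := Nat.mul_le_mul_left _ ((Nat.le_add_right _ _).trans hl.le)
        _ = (D * #U) ^ 2 := by ring
        _ ≤ (3 * Fintype.card Ω) ^ 2 := Nat.pow_le_pow_left h1 2
        _ = _ := by ring
    have h3 := Nat.mul_le_mul_right (Fintype.card Ω) t3.le
    refine (Nat.mul_le_mul_left _ ((card_union_le _ _).trans
      (add_le_add (card_union_le _ _) card_image_le))).trans ?_
    rw [card_product, card_product, card_univ]
    nlinarith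
  · simp only [mem_union, mem_product, mem_compl, mem_univ, and_true, true_and, not_or,
      not_not] at hab
    refine ⟨f2 a hab.1.1, f2 b hab.1.2, not_lt.1 fun h1 => hab.2 (mem_image.2
      ⟨(f a, f b), hY ▸ mem_filter.2 ⟨mem_product.2 ⟨f1 a hab.1.1, f1 b hab.1.2⟩, h1⟩, ?_⟩)⟩
    rw [f2 a hab.1.1, f2 b hab.1.2]

end Pool.Agent.Lib.MP_45faa6_lc.DP
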