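import Pool.Agent.Lib.MP_45faa6_lc.DP.Grid
import Pool.Agent.Lib.MP_45faa6_lc.DP.Amp

/-!
A third direction: every cell is encoded, and a node holds several points.
-/

set_option autoImplicit false

namespace Pool.Agent.Lib.MP_45faa6_lc.DP

open Finset Pool.Agent.Lib.MP_45faa6_lc.NL

variable {M : ℕ} {F : Type} [Field F] [CharP F 2] [Fintype F]

/-- A block of slots of one point, and a layer. -/
abbrev Blk (M : ℕ) (F : Type) [Field F] : Type :=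
  (GG M F → Fin 4 → XX M F → F) × (Fin 2 → XX M F → XX M F → F)

/-- Slot `j` of the points of a node. -/
def olds {τ : Type} (N : ℕ) (ι : ℕ → GG M F) (σ : ℕ → τ → Blk M F) (j : ℕ) (t : τ) :
    Fin 4 → XX M F → F := (σ (j / N) t).1 (ι (j % N))

/-- The rows and columns of `a`, encoded, agree with the layer `z`. -/
def LChk (L : GG M F → XX M F → F) (a z : XX M F) (x : GG M F → Fin 4 → XX M F → F)
    (y : Fin 2 → XX M F → XX M F → F) : Prop :=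
  ∀ c, (y 0 a c = ∑ u, L u z * x u 0 c ∧ y 0 c a = ∑ u, L u z * x u 1 c) ∧
    y 1 a c = ∑ u, L u z * x u 2 c ∧ y 1 c a = ∑ u, L u z * x u 3 c

/-- The test of a pair of nodes with points `A t`, `B t`. -/
def Test2 {τ : Type} (e d N : ℕ) (L : GG M F → XX M F → F) (ι : ℕ → GG M F) (ι' : GG M F → ℕ)
    (m : ℕ) (cl : ℕ → ℕ → ℕ → Fin 3 → Lit) (A B : τ → XX M F) (σ ρ : ℕ → τ → Blk M F) : Prop :=
  (∀ t, Test e d L ι ι' m cl (A t) (A t) (olds N ι σ · t) (olds N ι σ · t)) ∧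
    ∀ j < m, ∀ t t', LChk L (A t) (B t') (σ (j / N) t).1 (ρ (j / N) t').2

variable {e d N m : ℕ} {L : GG M F → XX M F → F} {ι : ℕ → GG M F} {ι' : GG M F → ℕ}
  {cl : ℕ → ℕ → ℕ → Fin 3 → Lit}

theorem Test.congr (H : Ok e d N L ι ι')
    (hcl : ∀ u < N, ∀ b < N, ∀ j < m, ∀ r, (cl u b j r).2.1 < N ∧ (cl u b j r).2.2.1 < m)
    {a b : XX M F} {p q p' q' : ℕ → Fin 4 → XX M F → F} (hp : ∀ j < m, p' j = p j)
    (hq : ∀ j < m, q' j = q j) (h : Test e d L ι ι' m cl a b p q) :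
    Test e d L ι ι' m cl a b p' q' := fun j hj => by
  rw [hp j hj, hq j hj]
  convert h j hj using 2 with t
  have h1 := hp _ (hcl _ (H.lt t.1) _ (H.lt t.2.1) j hj t.2.2).2
  unfold lv
  cases (cl (ι' t.1) (ι' t.2.1) j t.2.2).1 <;> simp [h1]

theorem complete2 {τ : Type} (H : Ok e d N L ι ι')
    (hcl : ∀ u < N, ∀ b < N, ∀ j < m, ∀ r, (cl u b j r).2.1 < N ∧ (cl u b j r).2.2.1 < m)
    (hs : GSat N m cl) :
    ∃ R : XX M F → ℕ → Blk M F, ∀ (A B : τ → XX M F) (σ ρ : ℕ → τ → Blk M F),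
      (∀ s < m / N + 1, σ s = fun t => R (A t) s) → (∀ s < m / N + 1, ρ s = fun t => R (B t) s) →
      Test2 e d N L ι ι' m cl A B σ ρ := by
  obtain ⟨P, hP⟩ := complete H hcl hs
  have hN : 0 < N := Nat.zero_lt_of_lt (H.lt 1)
  have hd : ∀ j < m, j / N < m / N + 1 := fun j hj =>
    Nat.lt_succ_of_le (Nat.div_le_div_right hj.le)
  obtain ⟨P', hP'⟩ : ∃ P' : XX M F → ℕ → Fin 4 → XX M F → F,
    P' = fun a j => if j < m then P a j else 0 := ⟨_, rfl⟩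
  have h1 : ∀ a b j, P' a j 0 b = P' b j 1 a ∧ P' a j 2 b = P' b j 3 a := fun a b j => by
    by_cases hj : j < m
    · simpa [hP', hj] using And.intro (hP a b j hj).1.2.2 (hP a b j hj).2.1.2.2
    · simp [hP', hj]
  refine ⟨fun z s => (fun u => P' z (s * N + ι' u),
    ![fun a b => ∑ u, L u z * P' a (s * N + ι' u) 0 b,
      fun a b => ∑ u, L u z * P' a (s * N + ι' u) 2 b]), fun A B σ ρ hσ hρ => ⟨fun t => ?_,
    fun j hj t t' c => ?_⟩⟩
  · have h2 : ∀ j < m, olds N ι σ j t = P (A t) j := fun j hj => by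
      simp only [olds, hσ _ (hd j hj), H.inv _ (Nat.mod_lt j hN), Nat.div_add_mod', hP', hj,
        if_true]
    exact (hP _ _).congr H hcl h2 h2
  · rw [hσ _ (hd j hj), hρ _ (hd j hj)]
    exact ⟨⟨rfl, sum_congr rfl fun u _ => congrArg _ (h1 _ _ _).1⟩, rfl,
      sum_congr rfl fun u _ => congrArg _ (h1 _ _ _).2⟩

theorem sound2 [DecidableEq F] {κ τ : Type} [Fintype κ] [Fintype τ] [Nonempty τ]
    (hQ : 2 ^ 90 ≤ Fintype.card F) (hd : 16 * d ≤ Fintype.card F) (H : Ok e d N L ι ι')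
    (hcl : ∀ u < N, ∀ b < N, ∀ j < m, ∀ r, (cl u b j r).2.1 < N ∧ (cl u b j r).2.2.1 < m)
    (S : κ × τ → XX M F) {r : ℕ} (hr : 0 < r) (hS : ∀ I : Finset κ, r ≤ #I →
      ∀ A : Finset (XX M F), Fintype.card (XX M F) ≤ 11 * 2 ^ 88 * Fintype.card F ^ 23 * #A →
        ∃ i ∈ I, ∃ t, S (i, t) ∈ A)
    (hk : Fintype.card κ ≤ Fintype.card (XX M F)) (σ : κ → ℕ → τ → Blk M F) (G : κ → κ → Prop)
    [DecidableRel G]
    (hG : ∀ i l, G i l → Test2 e d N L ι ι' m cl (S ⟨i, ·⟩) (S ⟨l, ·⟩) (σ i) (σ l))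
    (h : (11 * 2 ^ 88 * Fintype.card F ^ 23 + 2) * r * Fintype.card κ ^ 3 <
      #{p : κ × κ | G p.1 p.2} ^ 2) : GSat N m cl := by
  classical
  obtain ⟨f, E, hE, hf⟩ := amp_core S r _ hS hk G h
  obtain ⟨Q, hQ'⟩ : ∃ Q, Q = Fintype.card F := ⟨_, rfl⟩
  have hQ0 : 0 < Q := hQ' ▸ Fintype.card_pos
  have hK : Fintype.card (XX M F) = #(GS M F) * Q ^ 8 := by
    rw [Fintype.card_prod, card_GG, Fintype.card_fun, Fintype.card_fin, hQ']
  rw [← hQ', hK] at hE hS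
  suffices key : ∀ x y' : κ × τ, r ≤ #{l | G x.1 l ∧ G y'.1 l} → Test e d L ι ι' m cl (S x) (S y')
      (olds N ι (σ x.1) · x.2) (olds N ι (σ y'.1) · y'.2) by
    refine sound hQ hd H hcl (fun a j => olds N ι (σ (f a).1) j (f a).2) E ?_ fun a b hab => ?_
    · rw [← hQ']
      refine Nat.le_of_mul_le_mul_left (c := 11 * Q ^ 16) ?_ (by positivity)
      exact (le_of_eq (by ring)).trans (hE.trans_eq (by ring))
    · obtain ⟨ha, hb, hab⟩ := hf a b hab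
      have h1 := key _ _ hab
      rwa [ha, hb] at h1
  intro x y' hab j hj
  obtain ⟨l, hl⟩ := card_pos.1 (hr.trans_le hab)
  have h1 := (hG _ _ (mem_filter.1 hl).2.1).1 x.2 j hj
  have h2 := (hG _ _ (mem_filter.1 hl).2.2).1 y'.2 j hj
  obtain ⟨A, hA⟩ : ∃ A : Finset (XX M F), A = univ.filter fun z =>
    ¬∃ l t, (G x.1 l ∧ G y'.1 l) ∧ S (l, t) = z := ⟨_, rfl⟩
  have h3 : 16 * #A < #(GS M F) := by
    refine Nat.lt_of_mul_lt_mul_right (a := Q ^ 8) (lt_of_le_of_lt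
      (b := 11 * 2 ^ 88 * Q ^ 23 * #A) ?_ (not_le.1 fun h3 => ?_))
    swap
    · obtain ⟨i, hi, t, ht⟩ := hS _ hab A h3
      rw [hA] at ht
      exact (mem_filter.1 ht).2 ⟨i, t, (mem_filter.1 hi).2, rfl⟩
    · rw [mul_right_comm]
      exact Nat.mul_le_mul_right _ (Nat.mul_le_mul (by norm_num)
        (Nat.pow_le_pow_right hQ0 (by norm_num)))
  have h4 : ∀ v y : GG M F → F, (∀ z ∉ A, ∑ u, L u z * v u = ∑ u, L u z * y u) → ∀ u, v u = y u :=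
    fun v y hxy u => by
      have h5 := TT_dist (e := e) (D := d) hQ (by omega) A h3 _
        (sub_mem (comb_mem' _ v _ H.mem) (comb_mem' _ y _ H.mem))
        (fun z hz => sub_eq_zero.2 (hxy z hz)) (emb u)
      rwa [Pi.sub_apply, H.sum, H.sum, sub_eq_zero] at h5
  have h5 : ∀ z ∉ A, ∃ y, LChk L (S x) z (σ x.1 (j / N) x.2).1 y ∧
      LChk L (S y') z (σ y'.1 (j / N) y'.2).1 y := fun z hz => by
    obtain ⟨l, t, h6, rfl⟩ : ∃ l t, (G x.1 l ∧ G y'.1 l) ∧ S (l, t) = z :=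
      by_contra fun h6 => hz (hA ▸ mem_filter.2 ⟨mem_univ _, h6⟩)
    exact ⟨_, (hG _ _ h6.1).2 j hj x.2 t, (hG _ _ h6.2).2 j hj y'.2 t⟩
  refine ⟨⟨h1.1.1, h2.1.2.1, h4 (fun u => (σ x.1 (j / N) x.2).1 u 0 (S y'))
    (fun u => (σ y'.1 (j / N) y'.2).1 u 1 (S x)) (fun z hz => ?_) _⟩,
    ⟨h1.2.1.1, h2.2.1.2.1, h4 (fun u => (σ x.1 (j / N) x.2).1 u 2 (S y'))
    (fun u => (σ y'.1 (j / N) y'.2).1 u 3 (S x)) (fun z hz => ?_) _⟩, h1.2.2⟩
  · obtain ⟨y, y1, y2⟩ := h5 z hz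
    exact (y1 _).1.1.symm.trans (y2 _).1.2
  · obtain ⟨y, y1, y2⟩ := h5 z hz
    exact (y1 _).2.1.symm.trans (y2 _).2.2

end Pool.Agent.Lib.MP_45faa6_lc.DP
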