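import Pool.Agent.Lib.MP_45faa6_lc.NL.Defs
import Pool.Agent.Lib.MP_45faa6_lc.NL.PTFin

/-!
A formula laid out on a grid: node `u` sees row `u` and column `u`.
-/

set_option autoImplicit false

namespace Pool.Agent.Lib.MP_45faa6_lc.DP

open Finset Pool.Agent.Lib.MP_45faa6_lc.NL Pool.Agent.Lib.MP_acf5a6_lc
  Pool.Agent.Lib.Common.CookLevin

/-- A literal seen from a node: row or column, the other node, the slot, the sign. -/
abbrev Lit : Type := Bool × ℕ × ℕ × Bool

/-- The clauses `cl u b j` of the nodes `u` hold together. -/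
def GSat (N m : ℕ) (cl : ℕ → ℕ → ℕ → Fin 3 → Lit) : Prop :=
  ∃ x : ℕ → ℕ → ℕ → Bool, ∀ u < N, ∀ b < N, ∀ j < m, ∃ r,
    (if (cl u b j r).1 then x u (cl u b j r).2.1 (cl u b j r).2.2.1
      else x (cl u b j r).2.1 u (cl u b j r).2.2.1) = (cl u b j r).2.2.2

section cls

variable {K : Type} [DecidableEq K]

/-- The numbers below `L` with a given key. -/
def layCls (L : Un) (κ : ℕ → K) (k : K) : List ℕ := (urange L).filter fun o => decide (κ o = k)

/-- The rank of a number among those with the same key. -/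
def layRk (L : Un) (κ : ℕ → K) (o : ℕ) : ℕ := idx (layCls L κ (κ o)) o

/-- The number with a given key and rank, or `L`. -/
def layFnd (L : Un) (κ : ℕ → K) (k : K) (s : ℕ) : ℕ := (layCls L κ k).getD s L.n

variable {L : Un} {κ : ℕ → K}

theorem lay_mem {k : K} {o : ℕ} : o ∈ layCls L κ k ↔ o < L.n ∧ κ o = k := by
  simp [layCls, urange]

theorem lay_nodup (k : K) : (layCls L κ k).Nodup := List.nodup_range.filter _

theorem lay_len (k : K) : (layCls L κ k).length = #{o ∈ range L.n | κ o = k} := by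
  rw [← List.toFinset_card_of_nodup (lay_nodup k)]
  congr 1
  ext o
  simp [lay_mem]

theorem lay_rk_lt {o : ℕ} (h : o < L.n) : layRk L κ o < (layCls L κ (κ o)).length := by
  rw [layRk, idx_eq]
  exact List.idxOf_lt_length_iff.2 (lay_mem.2 ⟨h, rfl⟩)

theorem lay_fnd_rk {o : ℕ} (h : o < L.n) : layFnd L κ (κ o) (layRk L κ o) = o := by
  rw [layFnd, List.getD_eq_getElem _ _ (lay_rk_lt h)]
  simp only [layRk, idx_eq, List.getElem_idxOf]

theorem lay_fnd_of_lt {k : K} {s : ℕ} (h : s < (layCls L κ k).length) :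
    layFnd L κ k s < L.n ∧ κ (layFnd L κ k s) = k ∧ layRk L κ (layFnd L κ k s) = s := by
  have h1 : layFnd L κ k s = (layCls L κ k)[s] := List.getD_eq_getElem _ _ h
  have h2 := lay_mem.1 (h1 ▸ List.getElem_mem h : layFnd L κ k s ∈ layCls L κ k)
  refine ⟨h2.1, h2.2, ?_⟩
  rw [layRk, idx_eq, h2.2, h1]
  exact (lay_nodup k).idxOf_getElem s h

theorem lay_fnd_spec {k : K} {s : ℕ} (h : layFnd L κ k s < L.n) :
    κ (layFnd L κ k s) = k ∧ layRk L κ (layFnd L κ k s) = s := by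
  refine (lay_fnd_of_lt ?_).2
  by_contra c
  rw [layFnd, List.getD_eq_default _ _ (not_lt.1 c)] at h
  exact lt_irrefl _ h

theorem lay_rk_inj {o o' : ℕ} (h : o < L.n) (h' : o' < L.n) (e : κ o = κ o')
    (e' : layRk L κ o = layRk L κ o') : o = o' := by
  rw [← lay_fnd_rk (κ := κ) h, e, e', lay_fnd_rk h']

variable {α : Type} [N487b59b3 α] [N487b59b3 K] {M : α → Un} {μ : α → ℕ → K}

theorem layCls_PT (hM : PT M) (hμ : PT fun x : α × ℕ => μ x.1 x.2) {k : α → K} (hk : PT k) :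
    PT fun a => layCls (M a) (μ a) (k a) :=
  PT.filter (f := fun a o => decide (μ a o = k a)) (PT.decide_eq hμ (by fun_prop)) (by fun_prop)

theorem layRk_PT (hM : PT M) (hμ : PT fun x : α × ℕ => μ x.1 x.2) {o : α → ℕ} (ho : PT o) :
    PT fun a => layRk (M a) (μ a) (o a) :=
  idx_PT (layCls_PT hM hμ (PT.comp hμ (PT.prodMk PT.id' ho))) ho

theorem layFnd_PT (hM : PT M) (hμ : PT fun x : α × ℕ => μ x.1 x.2) {k : α → K} (hk : PT k)
    {s : α → ℕ} (hs : PT s) : PT fun a => layFnd (M a) (μ a) (k a) (s a) :=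
  listGetD_PT (layCls_PT hM hμ hk) hs (PT.unN hM)

end cls

/-- Ranks in `N` fibres spread evenly over the residues. -/
theorem lay_count {N : ℕ} (Y : Finset ℕ) (g a : ℕ → ℕ) (hg : ∀ o ∈ Y, g o < N)
    (ha : ∀ o ∈ Y, a o < #{o' ∈ Y | g o' = g o})
    (hi : ∀ o ∈ Y, ∀ o' ∈ Y, g o = g o' → a o = a o' → o = o') (c : ℕ) :
    N * #{o ∈ Y | a o % N = c} ≤ #Y + N * N := by
  have h1 : ∀ r, N * #{o ∈ {o ∈ Y | a o % N = c} | g o = r} ≤ #{o ∈ Y | g o = r} + N := by
    intro r
    have : #{o ∈ {o ∈ Y | a o % N = c} | g o = r} ≤ #(range (#{o ∈ Y | g o = r} / N + 1)) := by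
      refine card_le_card_of_injOn (fun o => a o / N) (fun o ho => ?_) fun o ho o' ho' e => ?_
      · simp only [coe_filter, mem_filter, Set.mem_ofPred_eq] at ho
        have := ha o ho.1.1
        rw [ho.2] at this
        exact mem_coe.2 (mem_range.2 (Nat.lt_succ_of_le (Nat.div_le_div_right this.le)))
      · simp only [coe_filter, mem_filter, Set.mem_ofPred_eq] at ho ho'
        refine hi o ho.1.1 o' ho'.1.1 (ho.2.trans ho'.2.symm) ?_
        have e' : a o / N = a o' / N := e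
        rw [← Nat.div_add_mod (a o) N, ← Nat.div_add_mod (a o') N, e', ho.1.2, ho'.1.2]
    rw [card_range] at this
    have h2 := Nat.mul_div_le (#{o ∈ Y | g o = r}) N
    nlinarith
  rw [card_eq_sum_card_fiberwise (f := g) (s := {o ∈ Y | a o % N = c}) (t := range N)
      fun o ho => mem_coe.2 (mem_range.2 (hg o (mem_filter.1 (mem_coe.1 ho)).1)),
    card_eq_sum_card_fiberwise (f := g) (s := Y) (t := range N)
      fun o ho => mem_coe.2 (mem_range.2 (hg o (mem_coe.1 ho))), mul_sum]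
  refine (sum_le_sum fun r _ => h1 r).trans_eq ?_
  rw [sum_add_distrib, sum_const, card_range, smul_eq_mul]

/-- The number of occurrences. -/
def lL (φ : CNF) : Un := (Un.mk 3).mul (ulen φ)

/-- The literal of an occurrence. -/
def lLit (φ : CNF) (o : ℕ) : ℕ × Bool :=
  (φ.getD (o / 3) []).getD (o % 3) ((φ.getD (o / 3) []).headD (0, true))

/-- The variable of an occurrence. -/
def lVar (φ : CNF) (o : ℕ) : ℕ := (lLit φ o).1

/-- The previous occurrence of the same variable. -/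
def lPrv (φ : CNF) (o : ℕ) : ℕ :=
  layFnd (lL φ) (lVar φ) (lVar φ o) (layRk (lL φ) (lVar φ) o - 1)

variable (N : ℕ)

/-- The node of an occurrence. -/
def lSrc (φ : CNF) (o : ℕ) : ℕ := o / 3 / (φ.length / N + 1)

/-- The node of the previous occurrence. -/
def lTgt (φ : CNF) (o : ℕ) : ℕ := lSrc N φ (lPrv φ o)

/-- The relay node. -/
def lMid (φ : CNF) (o : ℕ) : ℕ := layRk (lL φ) (fun o => (lSrc N φ o, lTgt N φ o)) o % N

/-- The cell of the first register. -/
def lK1 (φ : CNF) (o : ℕ) : ℕ × ℕ := (lSrc N φ o, lMid N φ o)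

/-- The cell of the second register. -/
def lK2 (φ : CNF) (o : ℕ) : ℕ × ℕ := (lMid N φ o, lTgt N φ o)

/-- The number of registers of each kind in a cell. -/
def lM (φ : CNF) : Un :=
  ((Un.mk 6).mul (ulen ((urange (ulen φ)).filter fun i => decide (i < φ.length / N ^ 2)))).add
    ⟨7 * N⟩

/-- The literal that reads the first register of `o` in a row. -/
def lRow1 (φ : CNF) (o : ℕ) (σ : Bool) : Lit :=
  (true, lMid N φ o, 2 * layRk (lL φ) (lK1 N φ) o, σ)

/-- The literal that reads the second register of `o` in a row. -/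
def lRow2 (φ : CNF) (o : ℕ) (σ : Bool) : Lit :=
  (true, lTgt N φ o, 2 * layRk (lL φ) (lK2 N φ) o + 1, σ)

/-- The clauses of the grid. -/
def lCl (φ : CNF) (u b j : ℕ) (r : Fin 3) : Lit :=
  if j % 5 = 0 then
    if layFnd (lL φ) (lK1 N φ) (u, b) (j / 5) < (lL φ).n then
      lRow1 N φ (3 * (layFnd (lL φ) (lK1 N φ) (u, b) (j / 5) / 3) + r)
        (lLit φ (3 * (layFnd (lL φ) (lK1 N φ) (u, b) (j / 5) / 3) + r)).2
    else (true, 0, 0, decide (r = 0))
  else if j % 5 ≤ 2 then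
    if layFnd (lL φ) (lK1 N φ) (b, u) (j / 5) < (lL φ).n then
      if r = 0 then (false, b, 2 * (j / 5), decide (j % 5 = 1))
      else lRow2 N φ (layFnd (lL φ) (lK1 N φ) (b, u) (j / 5)) (!decide (j % 5 = 1))
    else (true, 0, 0, decide (r = 0))
  else
    if layFnd (lL φ) (lK2 N φ) (b, u) (j / 5) < (lL φ).n then
      if r = 0 then (false, b, 2 * (j / 5) + 1, decide (j % 5 = 3))
      else lRow1 N φ (lPrv φ (layFnd (lL φ) (lK2 N φ) (b, u) (j / 5))) (!decide (j % 5 = 3))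
    else (true, 0, 0, decide (r = 0))

section pt

variable {α : Type} [N487b59b3 α] {φ : α → CNF} {o : α → ℕ}

@[fun_prop] theorem lL_PT (h : PT φ) : PT fun a => lL (φ a) := by unfold lL; fun_prop

@[fun_prop] theorem lLit_PT (h : PT φ) (ho : PT o) : PT fun a => lLit (φ a) (o a) := by
  unfold lLit; fun_prop

@[fun_prop] theorem lVar_PT (h : PT φ) (ho : PT o) : PT fun a => lVar (φ a) (o a) :=
  PT.fst (lLit_PT h ho)

@[fun_prop] theorem lPrv_PT (h : PT φ) (ho : PT o) : PT fun a => lPrv (φ a) (o a) :=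
  layFnd_PT (μ := fun a => lVar (φ a)) (lL_PT h) (by fun_prop) (lVar_PT h ho)
    (PT.natSub (layRk_PT (μ := fun a => lVar (φ a)) (lL_PT h) (by fun_prop) ho) (PT.const 1))

@[fun_prop] theorem lSrc_PT (h : PT φ) (ho : PT o) : PT fun a => lSrc N (φ a) (o a) := by
  unfold lSrc; fun_prop

@[fun_prop] theorem lTgt_PT (h : PT φ) (ho : PT o) : PT fun a => lTgt N (φ a) (o a) :=
  lSrc_PT N h (lPrv_PT h ho)

@[fun_prop] theorem lMid_PT (h : PT φ) (ho : PT o) : PT fun a => lMid N (φ a) (o a) :=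
  PT.natMod (layRk_PT (μ := fun a o => (lSrc N (φ a) o, lTgt N (φ a) o)) (lL_PT h) (by fun_prop) ho)
    (PT.const N)

@[fun_prop] theorem lK1_PT (h : PT φ) (ho : PT o) : PT fun a => lK1 N (φ a) (o a) :=
  PT.prodMk (lSrc_PT N h ho) (lMid_PT N h ho)

@[fun_prop] theorem lK2_PT (h : PT φ) (ho : PT o) : PT fun a => lK2 N (φ a) (o a) :=
  PT.prodMk (lMid_PT N h ho) (lTgt_PT N h ho)

theorem lM_PT : PT (lM N) := by unfold lM; fun_prop

@[fun_prop] theorem lRow1_PT (h : PT φ) (ho : PT o) {σ : α → Bool} (hσ : PT σ) :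
    PT fun a => lRow1 N (φ a) (o a) (σ a) := by
  have := layRk_PT (μ := fun a => lK1 N (φ a)) (lL_PT h) (by fun_prop) ho
  unfold lRow1; fun_prop

@[fun_prop] theorem lRow2_PT (h : PT φ) (ho : PT o) {σ : α → Bool} (hσ : PT σ) :
    PT fun a => lRow2 N (φ a) (o a) (σ a) := by
  have := layRk_PT (μ := fun a => lK2 N (φ a)) (lL_PT h) (by fun_prop) ho
  unfold lRow2; fun_prop

theorem lCl_PT (u b : ℕ) (r : Fin 3) : PT fun z : CNF × ℕ => lCl N z.1 u b z.2 r := by
  have h1 : ∀ k : ℕ × ℕ, PT fun z : CNF × ℕ => layFnd (lL z.1) (lK1 N z.1) k (z.2 / 5) := fun k =>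
    layFnd_PT (μ := fun z : CNF × ℕ => lK1 N z.1) (by fun_prop) (by fun_prop) (PT.const k)
      (by fun_prop)
  have h2 : ∀ k : ℕ × ℕ, PT fun z : CNF × ℕ => layFnd (lL z.1) (lK2 N z.1) k (z.2 / 5) := fun k =>
    layFnd_PT (μ := fun z : CNF × ℕ => lK2 N z.1) (by fun_prop) (by fun_prop) (PT.const k)
      (by fun_prop)
  have h3 := h1 (u, b)
  have h4 := h1 (b, u)
  have h5 := h2 (b, u)
  unfold lCl
  by_cases hr : r = 0
  · simp only [hr, if_true]
    fun_prop
  · simp only [hr, if_false]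
    fun_prop

end pt

section facts

variable {N} {φ : CNF} {o : ℕ}

theorem lL_n : (lL φ).n = 3 * φ.length := rfl

theorem lM_n : (lM N φ).n = 6 * (φ.length / N ^ 2) + 7 * N := by
  have : ((List.range φ.length).filter fun i => decide (i < φ.length / N ^ 2)).length =
      φ.length / N ^ 2 := by
    rw [← List.toFinset_card_of_nodup (List.nodup_range.filter _), ← card_range (_ / N ^ 2)]
    congr 1
    ext i
    have := Nat.div_le_self φ.length (N ^ 2)
    simp only [List.toFinset_filter, List.toFinset_range, mem_filter, mem_range, card_range,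
      decide_eq_true_eq]
    omega
  simp only [lM, Un.add, Un.mul, ulen, urange, this]

theorem lSrc_lt (hN : 0 < N) (h : o < (lL φ).n) : lSrc N φ o < N := by
  rw [lL_n] at h
  have := Nat.lt_mul_div_succ φ.length hN
  exact (Nat.div_lt_iff_lt_mul (Nat.succ_pos _)).2 (lt_trans (by omega) this)

theorem lPrv_spec (h : o < (lL φ).n) : lPrv φ o < (lL φ).n ∧ lVar φ (lPrv φ o) = lVar φ o ∧
    layRk (lL φ) (lVar φ) (lPrv φ o) = layRk (lL φ) (lVar φ) o - 1 :=
  lay_fnd_of_lt ((Nat.sub_le _ _).trans_lt (lay_rk_lt h))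

theorem card_src (i : ℕ) : #{o ∈ range (lL φ).n | lSrc N φ o = i} ≤ 3 * (φ.length / N + 1) := by
  rw [← card_range (3 * _)]
  refine card_le_card_of_injOn (fun o => o % (3 * (φ.length / N + 1)))
    (fun o _ => mem_coe.2 (mem_range.2 (Nat.mod_lt _ (by positivity)))) fun o ho o' ho' e => ?_
  have h1 := (mem_filter.1 (mem_coe.1 ho)).2
  have h2 := (mem_filter.1 (mem_coe.1 ho')).2
  have e' : o % (3 * (φ.length / N + 1)) = o' % (3 * (φ.length / N + 1)) := e
  rw [lSrc, Nat.div_div_eq_div_mul] at h1 h2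
  rw [← Nat.div_add_mod o (3 * (φ.length / N + 1)), ← Nat.div_add_mod o' (3 * (φ.length / N + 1)),
    e', h1, h2]

theorem card_tgt (i : ℕ) : #{o ∈ range (lL φ).n | lTgt N φ o = i} ≤ 6 * (φ.length / N + 1) := by
  have h1 : {o ∈ range (lL φ).n | lTgt N φ o = i} ⊆ {o ∈ range (lL φ).n | lSrc N φ o = i} ∪
      {o ∈ range (lL φ).n | layRk (lL φ) (lVar φ) o ≠ 0 ∧ lTgt N φ o = i} := by
    intro o ho
    rw [mem_filter] at ho
    rw [mem_union, mem_filter, mem_filter]
    by_cases h : layRk (lL φ) (lVar φ) o = 0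
    · refine Or.inl ⟨ho.1, ?_⟩
      have := lay_fnd_rk (κ := lVar φ) (mem_range.1 ho.1)
      rw [← ho.2, lTgt, lPrv, h, Nat.zero_sub, ← h, this]
    · exact Or.inr ⟨ho.1, h, ho.2⟩
  have h2 : #{o ∈ range (lL φ).n | layRk (lL φ) (lVar φ) o ≠ 0 ∧ lTgt N φ o = i} ≤
      #{o ∈ range (lL φ).n | lSrc N φ o = i} := by
    refine card_le_card_of_injOn (lPrv φ) (fun o ho => ?_) fun o ho o' ho' e => ?_
    · have := mem_filter.1 (mem_coe.1 ho)
      exact mem_coe.2 (mem_filter.2 ⟨mem_range.2 (lPrv_spec (mem_range.1 this.1)).1, this.2.2⟩)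
    · have a := mem_filter.1 (mem_coe.1 ho)
      have a' := mem_filter.1 (mem_coe.1 ho')
      have b := lPrv_spec (mem_range.1 a.1)
      have b' := lPrv_spec (mem_range.1 a'.1)
      rw [e] at b
      exact lay_rk_inj (κ := lVar φ) (mem_range.1 a.1) (mem_range.1 a'.1)
        (b.2.1.symm.trans b'.2.1) (by omega)
  have h3 := (card_le_card h1).trans (card_union_le _ _)
  have h4 := card_src (N := N) (φ := φ) i
  omega

theorem le_lM (hN : 0 < N) {a : ℕ} (h : N * a ≤ 6 * (φ.length / N + 1) + N * N) :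
    a ≤ (lM N φ).n := by
  have h1 := Nat.lt_mul_div_succ (φ.length / N) hN
  rw [Nat.div_div_eq_div_mul, ← sq] at h1
  rw [lM_n]
  refine Nat.le_of_mul_le_mul_left ?_ hN
  nlinarith

theorem rk1_lt (hN : 0 < N) (h : o < (lL φ).n) : layRk (lL φ) (lK1 N φ) o < (lM N φ).n := by
  refine (lay_rk_lt h).trans_le (le_lM hN ?_)
  have := lay_count (N := N) {o' ∈ range (lL φ).n | lSrc N φ o' = lSrc N φ o} (lTgt N φ)
    (layRk (lL φ) fun o => (lSrc N φ o, lTgt N φ o))
    (fun p hp => lSrc_lt hN (lPrv_spec (mem_range.1 (mem_filter.1 hp).1)).1)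
    (fun p hp => (lay_rk_lt (mem_range.1 (mem_filter.1 hp).1)).trans_eq (by
      rw [lay_len, filter_filter, ← (mem_filter.1 hp).2]
      simp only [Prod.mk.injEq]))
    (fun p hp q hq e => lay_rk_inj (mem_range.1 (mem_filter.1 hp).1)
      (mem_range.1 (mem_filter.1 hq).1)
      (Prod.ext ((mem_filter.1 hp).2.trans (mem_filter.1 hq).2.symm) e)) (lMid N φ o)
  have h2 := card_src (N := N) (φ := φ) (lSrc N φ o)
  rw [filter_filter] at this
  rw [lay_len]
  simp only [lK1, Prod.mk.injEq]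
  exact this.trans (by omega)

theorem rk2_lt (hN : 0 < N) (h : o < (lL φ).n) : layRk (lL φ) (lK2 N φ) o < (lM N φ).n := by
  refine (lay_rk_lt h).trans_le (le_lM hN ?_)
  have := lay_count (N := N) {o' ∈ range (lL φ).n | lTgt N φ o' = lTgt N φ o} (lSrc N φ)
    (layRk (lL φ) fun o => (lSrc N φ o, lTgt N φ o))
    (fun p hp => lSrc_lt hN (mem_range.1 (mem_filter.1 hp).1))
    (fun p hp => (lay_rk_lt (mem_range.1 (mem_filter.1 hp).1)).trans_eq (by
      rw [lay_len, filter_filter, ← (mem_filter.1 hp).2]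
      simp only [Prod.mk.injEq, and_comm]))
    (fun p hp q hq e => lay_rk_inj (mem_range.1 (mem_filter.1 hp).1)
      (mem_range.1 (mem_filter.1 hq).1)
      (Prod.ext e ((mem_filter.1 hp).2.trans (mem_filter.1 hq).2.symm))) (lMid N φ o)
  have h2 := card_tgt (N := N) (φ := φ) (lTgt N φ o)
  rw [filter_filter] at this
  rw [lay_len]
  simp only [lK2, Prod.mk.injEq, and_comm (a := lMid N φ _ = _)]
  exact this.trans (by omega)

theorem lCl_range (hN : 0 < N) {u b j : ℕ} (hb : b < N) (hj : j < 5 * (lM N φ).n) (r : Fin 3) :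
    (lCl N φ u b j r).2.1 < N ∧ (lCl N φ u b j r).2.2.1 < 5 * (lM N φ).n := by
  have h1 : ∀ o σ, o < (lL φ).n →
      (lRow1 N φ o σ).2.1 < N ∧ (lRow1 N φ o σ).2.2.1 < 5 * (lM N φ).n := fun o σ h =>
    ⟨Nat.mod_lt _ hN, by have := rk1_lt hN h; simp only [lRow1]; omega⟩
  have h2 : ∀ o σ, o < (lL φ).n →
      (lRow2 N φ o σ).2.1 < N ∧ (lRow2 N φ o σ).2.2.1 < 5 * (lM N φ).n := fun o σ h =>
    ⟨lSrc_lt hN (lPrv_spec h).1, by have := rk2_lt hN h; simp only [lRow2]; omega⟩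
  unfold lCl
  split_ifs with c1 c2 c3 c4 c5 c6 c7
  · exact h1 _ _ (by rw [lL_n] at c2 ⊢; omega)
  · exact ⟨hN, by simp only; omega⟩
  · exact ⟨hb, by simp only; omega⟩
  · exact h2 _ _ c4
  · exact ⟨hN, by simp only; omega⟩
  · exact ⟨hb, by simp only; omega⟩
  · exact h1 _ _ (lPrv_spec c6).1
  · exact ⟨hN, by simp only; omega⟩

theorem lay_complete (h3 : ∀ c ∈ φ, c.length ≤ 3) (m : ℕ) (h : Sat φ) : GSat N m (lCl N φ) := by
  obtain ⟨y, hy⟩ := h
  obtain ⟨x, e1, e2⟩ : ∃ x : ℕ → ℕ → ℕ → Bool,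
      (∀ o < (lL φ).n, x (lSrc N φ o) (lMid N φ o) (2 * layRk (lL φ) (lK1 N φ) o) = y (lVar φ o)) ∧
      ∀ o < (lL φ).n, x (lMid N φ o) (lTgt N φ o) (2 * layRk (lL φ) (lK2 N φ) o + 1) =
        y (lVar φ o) := by
    refine ⟨fun u c s => if s % 2 = 0 then y (lVar φ (layFnd (lL φ) (lK1 N φ) (u, c) (s / 2)))
      else y (lVar φ (layFnd (lL φ) (lK2 N φ) (u, c) (s / 2))), fun o ho => ?_, fun o ho => ?_⟩
    · have := lay_fnd_rk (κ := lK1 N φ) ho
      simp only
      rw [if_pos (by omega), Nat.mul_div_cancel_left _ two_pos]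
      exact congrArg (fun o => y (lVar φ o)) this
    · have := lay_fnd_rk (κ := lK2 N φ) ho
      simp only
      rw [if_neg (by omega), show ∀ a, (2 * a + 1) / 2 = a from fun a => by omega]
      exact congrArg (fun o => y (lVar φ o)) this
  refine ⟨x, fun u _ b _ j _ => ?_⟩
  have triv : ∃ r : Fin 3, x u 0 0 = decide (r = 0) := by
    cases x u 0 0
    · exact ⟨1, rfl⟩
    · exact ⟨0, rfl⟩
  have two : ∀ (v σ : Bool) (P : Fin 3 → Prop), (v = σ → P 0) → (v = (!σ) → P 1) → ∃ r, P r := by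
    intro v σ P p0 p1
    by_cases c : v = σ
    · exact ⟨0, p0 c⟩
    · exact ⟨1, p1 (Bool.eq_not_iff.2 c)⟩
  by_cases c1 : j % 5 = 0
  · by_cases c2 : layFnd (lL φ) (lK1 N φ) (u, b) (j / 5) < (lL φ).n
    · simp only [lCl, if_pos c1, if_pos c2, lRow1, if_true]
      have s := (lay_fnd_spec c2).1
      generalize layFnd (lL φ) (lK1 N φ) (u, b) (j / 5) = o at c2 s
      have q : o / 3 < φ.length := by rw [lL_n] at c2; omega
      obtain ⟨l, hl, hv⟩ := hy _ (List.getElem_mem q)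
      obtain ⟨i, hi, rfl⟩ := List.getElem_of_mem hl
      have i3 : i < 3 := hi.trans_le (h3 _ (List.getElem_mem q))
      have d : (3 * (o / 3) + i) / 3 = o / 3 := by omega
      have e := e1 (3 * (o / 3) + i) (by rw [lL_n]; omega)
      have hL : lLit φ (3 * (o / 3) + i) = φ[o / 3][i] := by
        rw [lLit, d, show (3 * (o / 3) + i) % 3 = i by omega, List.getD_eq_getElem _ _ q,
          List.getD_eq_getElem _ _ hi]
      rw [lVar, hL, hv, lSrc, d] at e
      refine ⟨⟨i, i3⟩, ?_⟩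
      obtain rfl : lSrc N φ o = u := (Prod.ext_iff.1 s).1
      rw [hL]
      exact e
    · simpa only [lCl, if_pos c1, if_neg c2, if_true] using triv
  by_cases c3 : j % 5 ≤ 2
  · by_cases c2 : layFnd (lL φ) (lK1 N φ) (b, u) (j / 5) < (lL φ).n
    · have s := lay_fnd_spec c2
      have a1 := e1 _ c2
      have a2 := e2 _ c2
      have s1 : lSrc N φ _ = b := (Prod.ext_iff.1 s.1).1
      have s2 : lMid N φ _ = u := (Prod.ext_iff.1 s.1).2
      rw [s.2, s1, s2] at a1
      rw [s2] at a2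
      refine two (x b u (2 * (j / 5))) (decide (j % 5 = 1)) _ (fun h => ?_) fun h => ?_
      · simp only [lCl, if_neg c1, if_pos c3, if_pos c2, if_true, Bool.false_eq_true, if_false]
        exact h
      · simp only [lCl, if_neg c1, if_pos c3, if_pos c2, one_ne_zero, if_false, lRow2, if_true]
        exact (a2.trans a1.symm).trans h
    · simpa only [lCl, if_neg c1, if_pos c3, if_neg c2, if_true] using triv
  by_cases c2 : layFnd (lL φ) (lK2 N φ) (b, u) (j / 5) < (lL φ).n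
  · have s := lay_fnd_spec c2
    have p := lPrv_spec c2
    have a1 := e1 _ p.1
    have a2 := e2 _ c2
    have s1 : lMid N φ _ = b := (Prod.ext_iff.1 s.1).1
    have s2 : lSrc N φ (lPrv φ _) = u := (Prod.ext_iff.1 s.1).2
    rw [s.2, s1, lTgt, s2] at a2
    rw [s2, p.2.1] at a1
    refine two (x b u (2 * (j / 5) + 1)) (decide (j % 5 = 3)) _ (fun h => ?_) fun h => ?_
    · simp only [lCl, if_neg c1, if_neg c3, if_pos c2, if_true, Bool.false_eq_true, if_false]
      exact h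
    · simp only [lCl, if_neg c1, if_neg c3, if_pos c2, one_ne_zero, if_false, lRow1, if_true]
      exact (a1.trans a2.symm).trans h
  · simpa only [lCl, if_neg c1, if_neg c3, if_neg c2, if_true] using triv

theorem lay_sound (hN : 0 < N) (h1 : ∀ c ∈ φ, 1 ≤ c.length)
    (h : GSat N (5 * (lM N φ).n) (lCl N φ)) : Sat φ := by
  obtain ⟨x, hx⟩ := h
  have key : ∀ (a b : Bool) (P Q : Fin 3 → Prop), (∃ r, P r) → (∃ r, Q r) →
      (∀ r, P r → a = true ∨ b = false) → (∀ r, Q r → a = false ∨ b = true) → a = b := by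
    rintro a b P Q ⟨r, p⟩ ⟨r', q⟩ hp hq
    have := hp r p
    have := hq r' q
    cases a <;> cases b <;> simp_all
  have step : ∀ o < (lL φ).n, x (lSrc N φ o) (lMid N φ o) (2 * layRk (lL φ) (lK1 N φ) o) =
      x (lSrc N φ (lPrv φ o)) (lMid N φ (lPrv φ o)) (2 * layRk (lL φ) (lK1 N φ) (lPrv φ o)) := by
    intro o ho
    have f1 : layFnd (lL φ) (lK1 N φ) (lSrc N φ o, lMid N φ o) _ = o := lay_fnd_rk (κ := lK1 N φ) ho
    have f2 : layFnd (lL φ) (lK2 N φ) (lMid N φ o, lTgt N φ o) _ = o := lay_fnd_rk (κ := lK2 N φ) ho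
    have r1 := rk1_lt hN ho
    have r2 := rk2_lt hN ho
    have hm : lMid N φ o < N := Nat.mod_lt _ hN
    have hs := lSrc_lt hN ho
    have ht : lTgt N φ o < N := lSrc_lt hN (lPrv_spec ho).1
    have md : ∀ a t, t < 5 → (5 * a + t) % 5 = t := fun a t _ => by omega
    have dv : ∀ a t, t < 5 → (5 * a + t) / 5 = a := fun a t _ => by omega
    refine (key _ (x (lMid N φ o) (lTgt N φ o) (2 * layRk (lL φ) (lK2 N φ) o + 1)) _ _
      (hx _ hm _ hs (5 * layRk (lL φ) (lK1 N φ) o + 1) (by omega))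
      (hx _ hm _ hs (5 * layRk (lL φ) (lK1 N φ) o + 2) (by omega)) ?_ ?_).trans
      (key _ _ _ _ (hx _ ht _ hm (5 * layRk (lL φ) (lK2 N φ) o + 3) (by omega))
      (hx _ ht _ hm (5 * layRk (lL φ) (lK2 N φ) o + 4) (by omega)) ?_ ?_)
    all_goals
      intro r p
      by_cases c : r = 0
      · refine Or.inl ?_
        simpa [lCl, md, dv, f1, f2, ho, c] using p
      · refine Or.inr ?_
        simp only [lCl, md _ _ (by norm_num : 1 < 5), md _ _ (by norm_num : 2 < 5),
          md _ _ (by norm_num : 3 < 5), md _ _ (by norm_num : 4 < 5), dv _ _ (by norm_num : 1 < 5),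
          dv _ _ (by norm_num : 2 < 5), dv _ _ (by norm_num : 3 < 5), dv _ _ (by norm_num : 4 < 5),
          f1, f2] at p
        simpa [ho, c, lRow1, lRow2, lTgt] using p
  have chain : ∀ k, ∀ o < (lL φ).n, layRk (lL φ) (lVar φ) o = k →
      x (lSrc N φ o) (lMid N φ o) (2 * layRk (lL φ) (lK1 N φ) o) =
      (fun o => x (lSrc N φ o) (lMid N φ o) (2 * layRk (lL φ) (lK1 N φ) o))
        (layFnd (lL φ) (lVar φ) (lVar φ o) 0) := by
    intro k
    induction k with
    | zero => intro o ho e; rw [← e, lay_fnd_rk ho]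
    | succ k ih =>
      intro o ho e
      have p := lPrv_spec ho
      rw [step o ho, ih _ p.1 (by omega), p.2.1]
  refine ⟨fun z => (fun o => x (lSrc N φ o) (lMid N φ o) (2 * layRk (lL φ) (lK1 N φ) o))
    (layFnd (lL φ) (lVar φ) z 0), fun c hc => ?_⟩
  obtain ⟨q, hq, rfl⟩ := List.getElem_of_mem hc
  have ho : 3 * q < (lL φ).n := by rw [lL_n]; omega
  have f1 : layFnd (lL φ) (lK1 N φ) (lSrc N φ (3 * q), lMid N φ (3 * q)) _ = 3 * q :=
    lay_fnd_rk (κ := lK1 N φ) ho
  have r1 := rk1_lt hN ho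
  obtain ⟨r, hr⟩ := hx _ (lSrc_lt hN ho) (lMid N φ (3 * q)) (Nat.mod_lt _ hN)
    (5 * layRk (lL φ) (lK1 N φ) (3 * q)) (by omega)
  simp only [lCl, Nat.mul_mod_right, if_true, Nat.mul_div_cancel_left _ (by norm_num : 0 < 5), f1,
    if_pos ho, Nat.mul_div_cancel_left _ (by norm_num : 0 < 3), lRow1] at hr
  have d : (3 * q + r) / 3 = q := by omega
  have hs : lSrc N φ (3 * q) = lSrc N φ (3 * q + r) := by
    rw [lSrc, lSrc, d, Nat.mul_div_cancel_left _ (by norm_num : 0 < 3)]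
  rw [hs, chain _ _ (by rw [lL_n]; omega) rfl] at hr
  refine ⟨_, ?_, hr⟩
  have := h1 _ hc
  rw [lLit, d, List.getD_eq_getElem _ _ hq]
  generalize φ[q] = c at this ⊢
  by_cases e : (3 * q + r) % 3 < c.length
  · rw [List.getD_eq_getElem _ _ e]
    exact List.getElem_mem e
  · rw [List.getD_eq_default _ _ (not_lt.1 e)]
    cases c with
    | nil => simp at this
    | cons a l => exact List.mem_cons_self

end facts

/-- A formula with at most three literals per clause is laid out on an `N` by `N` grid. -/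
theorem layout (N : ℕ) (hN : 0 < N) :
    ∃ (m : CNF → Un) (cl : CNF → ℕ → ℕ → ℕ → Fin 3 → Lit),
      PT m ∧ (∀ u b r, PT fun z : CNF × ℕ => cl z.1 u b z.2 r) ∧
      ∀ φ, (m φ).n ≤ 70 * (φ.length / N ^ 2 + N) ∧
        (∀ u < N, ∀ b < N, ∀ j < (m φ).n, ∀ r,
          (cl φ u b j r).2.1 < N ∧ (cl φ u b j r).2.2.1 < (m φ).n) ∧
        ((∀ c ∈ φ, 1 ≤ c.length ∧ c.length ≤ 3) → (Sat φ ↔ GSat N (m φ).n (cl φ))) := by
  have hM := lM_PT N
  refine ⟨fun φ => (Un.mk 5).mul (lM N φ), lCl N, by fun_prop, lCl_PT N, fun φ => ⟨?_,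
    fun u _ b hb j hj r => lCl_range hN hb hj r, fun h => ⟨lay_complete (fun c hc => (h c hc).2) _,
    lay_sound hN fun c hc => (h c hc).1⟩⟩⟩
  show 5 * (lM N φ).n ≤ _
  rw [lM_n]
  omega

end Pool.Agent.Lib.MP_45faa6_lc.DP
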