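import Pool.Agent.Lib.MP_45faa6_lc.DP.Tensor
import Pool.Agent.Lib.MP_45faa6_lc.DP.Lay

/-!
The pair test for clauses on a grid: completeness and soundness.
-/

set_option autoImplicit false

namespace Pool.Agent.Lib.MP_45faa6_lc.DP

open Finset Pool.Agent.Lib.MP_45faa6_lc.NL

variable {M : ℕ} {F : Type} [Field F] [CharP F 2]

/-- The information coordinates. -/
def emb (u : GG M F) : XX M F := (u, 0)

/-- The value of a literal minus its sign, read from a row and a column. -/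
def lv (ι : ℕ → GG M F) (r c : ℕ → XX M F → F) (l : Lit) : F :=
  (if l.1 then r else c) l.2.2.1 (emb (ι l.2.1)) - if l.2.2.2 then 1 else 0

/-- Words of degree `D` vanishing on the information coordinates. -/
def TZ (M : ℕ) (F : Type) [Field F] [CharP F 2] (e D : ℕ) : Submodule F (XX M F → F) where
  carrier := {w | w ∈ TT M F e D ∧ ∀ u, w (emb u) = 0}
  add_mem' h h' := ⟨add_mem h.1 h'.1, fun u => by simp [h.2 u, h'.2 u]⟩
  zero_mem' := ⟨zero_mem _, fun _ => rfl⟩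
  smul_mem' c _ h := ⟨Submodule.smul_mem _ c h.1, fun u => by simp [h.2 u]⟩

theorem TT_mul {e d d' : ℕ} {f g : XX M F → F} (hf : f ∈ TT M F e d) (hg : g ∈ TT M F e d') :
    (fun x => f x * g x) ∈ TT M F e (d + d') := fun i x => (hf i x).mul (hg i x)

omit [CharP F 2] in
theorem comb_mem {X κ : Type} [Fintype κ] (A : Submodule F (X → F)) (c : κ → F) (g : κ → X → F)
    (hg : ∀ u, g u ∈ A) : (fun x => ∑ u, c u * g u x) ∈ A := by
  convert A.sum_mem (t := univ) fun u _ => A.smul_mem (c u) (hg u) using 1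
  funext x
  simp

omit [CharP F 2] in
theorem comb_mem' {X κ : Type} [Fintype κ] (A : Submodule F (X → F)) (c : κ → F) (g : κ → X → F)
    (hg : ∀ u, g u ∈ A) : (fun x => ∑ u, g u x * c u) ∈ A := by
  simpa only [mul_comm] using comb_mem A c g hg

theorem lv_mem {e d m : ℕ} (ι : ℕ → GG M F) (W : XX M F → ℕ → XX M F → F)
    (h1 : ∀ a j, W a j ∈ TT M F e d) (h2 : ∀ b, ∀ j < m, (fun a => W a j b) ∈ TT M F e d) (l : Lit)
    (hl : l.2.2.1 < m) : (fun a => lv ι (W a) (fun j b => W b j a) l) ∈ TT M F e d := by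
  intro i x
  unfold lv
  refine LD.sub ?_ (LD.const _ _)
  cases l.1
  · exact h1 _ _ i x
  · exact h2 _ _ hl i x

variable [Fintype F]

/-- The test of one slot. -/
def Chk (e d : ℕ) (L : GG M F → XX M F → F) (a b : XX M F) (p q : Fin 4 → XX M F → F)
    (v : GG M F × GG M F × Fin 3 → F) : Prop :=
  (p 0 ∈ TT M F e d ∧ q 1 ∈ TT M F e d ∧ p 0 b = q 1 a) ∧
    (p 2 ∈ TT M F e d ∧ q 3 ∈ TZ M F e (4 * d) ∧ p 2 b = q 3 a) ∧
    ∀ w, p 2 (emb w) = ∑ u, L u a * ∏ r, v (u, w, r)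

/-- The test of a pair of nodes. -/
def Test (e d : ℕ) (L : GG M F → XX M F → F) (ι : ℕ → GG M F) (ι' : GG M F → ℕ) (m : ℕ)
    (cl : ℕ → ℕ → ℕ → Fin 3 → Lit) (a b : XX M F) (p q : ℕ → Fin 4 → XX M F → F) : Prop :=
  ∀ j < m, Chk e d L a b (p j) (q j) fun t =>
    lv ι (fun j => p j 0) (fun j => p j 1) (cl (ι' t.1) (ι' t.2.1) j t.2.2)

/-- Lagrange words and a numbering of the information coordinates. -/
structure Ok (e d N : ℕ) (L : GG M F → XX M F → F) (ι : ℕ → GG M F) (ι' : GG M F → ℕ) : Prop where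
  mem : ∀ u, L u ∈ TT M F e d
  one : ∀ u, L u (emb u) = 1
  zero : ∀ u v, u ≠ v → L u (emb v) = 0
  lt : ∀ u, ι' u < N
  inv : ∀ n < N, ι' (ι n) = n

variable {e d N m : ℕ} {L : GG M F → XX M F → F} {ι : ℕ → GG M F} {ι' : GG M F → ℕ}
  {cl : ℕ → ℕ → ℕ → Fin 3 → Lit}

theorem Ok.sum (H : Ok e d N L ι ι') (f : GG M F → F) (v : GG M F) :
    ∑ u, L u (emb v) * f u = f v := by
  rw [sum_eq_single v (fun u _ h => by rw [H.zero u v h, zero_mul]) (by simp), H.one, one_mul]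

/-- The zero-check word. -/
noncomputable def zz (L : GG M F → XX M F → F) (ι : ℕ → GG M F) (ι' : GG M F → ℕ)
    (cl : ℕ → ℕ → ℕ → Fin 3 → Lit) (W : XX M F → ℕ → XX M F → F) (w : GG M F) (j : ℕ)
    (a : XX M F) : F :=
  ∑ u, L u a * ∏ r, lv ι (W a) (fun j b => W b j a) (cl (ι' u) (ι' w) j r)

theorem Ok.zz_mem (H : Ok e d N L ι ι')
    (hcl : ∀ u < N, ∀ b < N, ∀ j < m, ∀ r, (cl u b j r).2.1 < N ∧ (cl u b j r).2.2.1 < m)
    (W : XX M F → ℕ → XX M F → F) (h1 : ∀ a j, W a j ∈ TT M F e d)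
    (h2 : ∀ b, ∀ j < m, (fun a => W a j b) ∈ TT M F e d) (w : GG M F) {j : ℕ} (hj : j < m) :
    zz L ι ι' cl W w j ∈ TT M F e (4 * d) := by
  have h3 := fun u r => lv_mem ι W h1 h2 _ (hcl _ (H.lt u) _ (H.lt w) j hj r).2
  intro i x
  refine LD.sum _ fun u _ => ?_
  simp only [Fin.prod_univ_three]
  exact (TT_mul (H.mem u) (TT_mul (TT_mul (h3 u 0) (h3 u 1)) (h3 u 2)) i x).mono (by omega)

theorem complete (H : Ok e d N L ι ι')
    (hcl : ∀ u < N, ∀ b < N, ∀ j < m, ∀ r, (cl u b j r).2.1 < N ∧ (cl u b j r).2.2.1 < m)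
    (hs : GSat N m cl) :
    ∃ P : XX M F → ℕ → Fin 4 → XX M F → F, ∀ a b, Test e d L ι ι' m cl a b (P a) (P b) := by
  obtain ⟨x, hx⟩ := hs
  obtain ⟨X, hX⟩ : ∃ X : XX M F → ℕ → XX M F → F, X = fun a j b =>
    ∑ u, L u a * ∑ v, L v b * if x (ι' u) (ι' v) j then 1 else 0 := ⟨_, rfl⟩
  have h1 : ∀ a j, X a j ∈ TT M F e d := fun a j =>
    hX ▸ comb_mem _ _ _ fun u => comb_mem' _ _ _ H.mem
  have h2 : ∀ b j, (fun a => X a j b) ∈ TT M F e d := fun b j => hX ▸ comb_mem' _ _ _ H.mem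
  have h3 : ∀ u v j, X (emb u) j (emb v) = if x (ι' u) (ι' v) j then 1 else 0 := fun u v j => by
    simp only [hX, H.sum]
  refine ⟨fun a j => ![X a j, fun b => X b j a, fun b => ∑ w, L w b * zz L ι ι' cl X w j a,
    fun b => ∑ w, L w a * zz L ι ι' cl X w j b], fun a b j hj =>
      ⟨⟨h1 a j, h2 b j, rfl⟩, ⟨comb_mem' _ _ _ H.mem, comb_mem _ _ _ fun w =>
        ⟨H.zz_mem hcl X h1 (fun b j _ => h2 b j) w hj, fun u => ?_⟩, rfl⟩, fun w => H.sum _ w⟩⟩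
  obtain ⟨r, hr⟩ := hx _ (H.lt u) _ (H.lt w) j hj
  have h4 := H.inv _ (hcl _ (H.lt u) _ (H.lt w) j hj r).1
  rw [zz, H.sum]
  refine prod_eq_zero (mem_univ r) (sub_eq_zero.2 ?_)
  rw [← hr]
  cases (cl (ι' u) (ι' w) j r).1 <;> simp [h3, h4]

theorem sound [DecidableEq F] (hQ : 2 ^ 90 ≤ Fintype.card F) (hd : 16 * d ≤ Fintype.card F)
    (H : Ok e d N L ι ι')
    (hcl : ∀ u < N, ∀ b < N, ∀ j < m, ∀ r, (cl u b j r).2.1 < N ∧ (cl u b j r).2.2.1 < m)
    (P : XX M F → ℕ → Fin 4 → XX M F → F) (E : Finset (XX M F × XX M F))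
    (hE : 2 ^ 88 * Fintype.card F ^ 7 * #E ≤ #(GS M F) ^ 2)
    (h : ∀ a b, (a, b) ∉ E → Test e d L ι ι' m cl a b (P a) (P b)) : GSat N m cl := by
  classical
  obtain ⟨X, D, hD, x1, x2, x3⟩ := tensor hQ hd (TT M F e d) (TT_mono e (by omega)) m
    (fun a j => P a j 0) (fun a j => P a j 1) E hE fun a b hab j hj => (h a b hab j hj).1
  obtain ⟨Z, D', hD', z1, z2, z3⟩ := tensor hQ hd (TZ M F e (4 * d)) (fun _ h => h.1) m
    (fun a j => P a j 2) (fun a j => P a j 3) E hE fun a b hab j hj => (h a b hab j hj).2.1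
  refine ⟨fun u v j => decide (X (emb (ι u)) j (emb (ι v)) = 1), fun u hu b hb j hj => ?_⟩
  have h1 := TT_dist (e := e) (D := 4 * d) hQ (by omega) (D ∪ D')
    (by have := card_union_le D D'; omega)
    ((fun a => Z a j (emb (ι b))) - zz L ι ι' cl X (ι b) j)
    (sub_mem (z2 _ j hj).1 (H.zz_mem hcl X x1 x2 _ hj)) (fun a ha => by
      rw [mem_union, not_or] at ha
      obtain ⟨⟨c, hc⟩, h2⟩ := x3 a ha.1
      rw [Pi.sub_apply, sub_eq_zero, ← ((z3 a ha.2).2 j hj).1, (h a c hc j hj).2.2]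
      refine sum_congr rfl fun v _ => congrArg _ (prod_congr rfl fun r _ => ?_)
      have h3 := h2 _ (hcl _ (H.lt v) _ (H.lt (ι b)) j hj r).2
      beta_reduce
      unfold lv
      refine congrArg (· - _) ?_
      cases (cl (ι' v) (ι' (ι b)) j r).1
      · exact h3.2 _
      · exact congrFun h3.1 _) (emb (ι u))
  have h0 : Z (emb (ι u)) j (emb (ι b)) = 0 := (z2 _ j hj).2 (ι u)
  rw [Pi.sub_apply, h0, zero_sub, neg_eq_zero, zz, H.sum, H.inv u hu, H.inv b hb] at h1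
  obtain ⟨r, -, hr⟩ := prod_eq_zero_iff.1 h1
  refine ⟨r, ?_⟩
  rw [lv, sub_eq_zero] at hr
  revert hr
  cases (cl u b j r).1 <;> cases (cl u b j r).2.2.2 <;> simp +contextual

end Pool.Agent.Lib.MP_45faa6_lc.DP
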