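import Pool.Agent.Lib.MP_45faa6_lc.DP.Cube
import Pool.Agent.Lib.MP_45faa6_lc.NL.Hat

/-!
The verifier that reads two symbols.
-/

set_option autoImplicit false

namespace Pool.Agent.Lib.MP_45faa6_lc.DP

open Finset Pool.Agent.Lib.MP_45faa6_lc.NL Pool.Agent.Lib.MP_acf5a6_lc
  Pool.Agent.Lib.Common.CookLevin

/-- A numbering of a finite type. -/
noncomputable def num (X : Type) [Fintype X] [Nonempty X] (n : ℕ) : X :=
  if h : n < Fintype.card X then (Fintype.equivFin X).symm ⟨n, h⟩ else Classical.arbitrary X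

/-- An encoding of a finite type. -/
@[reducible] noncomputable def finEnc (X : Type) [Finite X] : N487b59b3 X :=
  letI := Fintype.ofFinite X
  N487b59b3.ofLeftInverse (fun x => (Fintype.equivFin X x).val)
    (fun n => if h : n < Fintype.card X then some ((Fintype.equivFin _).symm ⟨n, h⟩) else none)
    fun x => by simp

/-- Block number `j` of a string, decoded. -/
def slot {B : ℕ} {W : Type} (dec : (Fin B → Bool) ≃ W) (s : List Bool) (j : ℕ) : W :=
  dec fun t => s.getD (j * B + t) false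

theorem exists_str {B : ℕ} {W : Type} (hB : 0 < B) (dec : (Fin B → Bool) ≃ W) (m : ℕ) (p : ℕ → W) :
    ∃ s : List Bool, s.length = m * B ∧ ∀ j < m, slot dec s j = p j := by
  refine ⟨(List.range (m * B)).map fun n => dec.symm (p (n / B)) ⟨n % B, Nat.mod_lt _ hB⟩, by simp,
    fun j hj => dec.eq_symm_apply.1 (funext fun t => ?_)⟩
  have h1 : j * B + t < m * B := by
    have := Nat.mul_le_mul_right B (Nat.succ_le_of_lt hj)
    have := t.isLt
    rw [Nat.succ_mul] at *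
    omega
  have h2 : (j * B + t) / B = j := by
    rw [mul_comm, Nat.mul_add_div hB, Nat.div_eq_of_lt t.isLt, add_zero]
  have h3 : (j * B + t) % B = t := by rw [mul_comm, Nat.mul_add_mod, Nat.mod_eq_of_lt t.isLt]
  simp [List.getD_eq_getElem?_getD, h1, h2, h3]

section PT

variable {α β γ : Type} [N487b59b3 α] [N487b59b3 β] [N487b59b3 γ]

theorem PT_fin [Finite β] [Nonempty β] {g : α → β} (hg : PT g) (h : β → γ) : PT fun a => h (g a) :=
  PT_case hg (f := fun b _ => h b) fun _ => PT.const _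

theorem PT_tab (g : ℕ → β) (n : ℕ) (hg : ∀ i, n ≤ i → g i = g n) {f : α → ℕ} (hf : PT f) :
    PT fun a => g (f a) := by
  refine (listGetD_PT (PT.const ((List.range n).map g)) hf (PT.const (g n))).of_eq fun a => ?_
  by_cases h : f a < n
  · simp [List.getD_eq_getElem?_getD, h]
  · simp [List.getD_eq_getElem?_getD, h, hg _ (not_lt.1 h)]

theorem num_PT [Fintype β] [Nonempty β] {f : α → ℕ} (hf : PT f) : PT fun a => num β (f a) :=
  PT_tab _ (Fintype.card β) (fun i hi => by simp [num, not_lt.2 hi]) hf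

theorem slot_PT {B : ℕ} (dec : (Fin B → Bool) ≃ γ) {s : α → List Bool} {j : α → ℕ} (hs : PT s)
    (hj : PT j) : PT fun a => slot dec (s a) (j a) :=
  PT_finFun (fun (t : Fin B) a => (s a).getD (j a * B + t) false) (fun t => by fun_prop) dec

end PT

variable {M : ℕ} {F : Type} [Field F] [CharP F 2] [Fintype F]

omit [CharP F 2] in
theorem finite_Blk : Finite (Blk M F) := by
  have i0 : Finite (XX M F → F) := inferInstance
  have i1 : Finite (GG M F → Fin 4 → XX M F → F) := inferInstance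
  have i2 : Finite (Fin 2 → XX M F → XX M F → F) := inferInstance
  infer_instance

/-- The input of the verifier. -/
abbrev Inp : Type := CNF × (ℕ × List Bool) × (ℕ × List Bool)

open Classical in
/-- The verifier. -/
noncomputable def ver {τ : Type} (e d N : ℕ) (L : GG M F → XX M F → F) (ι' : GG M F → ℕ) {B : ℕ}
    (dec : (Fin B → Bool) ≃ (τ → Blk M F)) (S : ℕ → τ → XX M F) (m : CNF → Un)
    (cl : CNF → ℕ → ℕ → ℕ → Fin 3 → Lit) (z : Inp) : Bool :=
  decide ((∀ c ∈ z.1, 1 ≤ c.length ∧ c.length ≤ 3) ∧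
    Test2 e d N L (num _) ι' (m z.1).n (cl z.1) (S z.2.1.1) (S z.2.2.1) (slot dec z.2.1.2)
      (slot dec z.2.2.2))

theorem ver_PT {τ : Type} [Fintype τ] (e d N : ℕ) (L : GG M F → XX M F → F) (ι' : GG M F → ℕ)
    {B : ℕ} (dec : (Fin B → Bool) ≃ (τ → Blk M F)) {S : ℕ → τ → XX M F} {k : ℕ}
    (hS : ∀ i, k ≤ i → S i = S k) {m : CNF → Un} {cl : CNF → ℕ → ℕ → ℕ → Fin 3 → Lit} (hm : PT m)
    (hcl : ∀ u b r, PT fun z : CNF × ℕ => cl z.1 u b z.2 r) :
    PT (ver e d N L ι' dec S m cl) := by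
  classical
  have i0 : Finite (Blk M F) := finite_Blk
  have i1 : Finite (τ → XX M F) := inferInstance
  have i2 : Finite (τ → Blk M F) := inferInstance
  have i3 : Finite (τ → Fin 4 → XX M F → F) := inferInstance
  have i4 : Finite (τ × GG M F × GG M F × Fin 3) := inferInstance
  have i5 : Finite (τ × GG M F × GG M F × Fin 3 → F) := inferInstance
  have i6 : Nonempty (τ → XX M F) := ⟨fun _ => emb 1⟩
  have i7 : Nonempty (τ → Blk M F) := ⟨fun _ => (0, 0)⟩
  let _ := finEnc F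
  let _ := finEnc (GG M F)
  let _ := finEnc (τ → XX M F)
  let _ := finEnc (τ → Blk M F)
  let _ := finEnc (τ → Fin 4 → XX M F → F)
  let _ := finEnc (τ × GG M F × GG M F × Fin 3 → F)
  have h0 : ∀ j : Inp × ℕ → ℕ, PT j →
      PT fun x : Inp × ℕ => olds N (num _) (slot dec x.1.2.1.2) (j x) := fun j hj =>
    PT_fin ((slot_PT dec (s := fun x : Inp × ℕ => x.1.2.1.2) (j := fun x => j x / N) (by fun_prop)
      (by fun_prop)).prodMk (num_PT (β := GG M F) (f := fun x => j x % N) (by fun_prop)))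
      fun y t => (y.1 t).1 y.2
  have h1 : ∀ t : τ × GG M F × GG M F × Fin 3, PT fun x : Inp × ℕ =>
      lv (num _) (fun j => olds N (num _) (slot dec x.1.2.1.2) j t.1 0)
        (fun j => olds N (num _) (slot dec x.1.2.1.2) j t.1 1)
        (cl x.1.1 (ι' t.2.1) (ι' t.2.2.1) x.2 t.2.2.2) := fun t => by
    have h2 : PT fun x : Inp × ℕ => cl x.1.1 (ι' t.2.1) (ι' t.2.2.1) x.2 t.2.2.2 :=
      (hcl _ _ _).comp (g := fun x : Inp × ℕ => (x.1.1, x.2)) (by fun_prop)
    refine (PT_fin (((h0 _ h2.snd.snd.fst).prodMk (num_PT (β := GG M F) h2.snd.fst)).prodMk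
      (h2.fst.prodMk h2.snd.snd.snd)) fun y => y.1.1 t.1 (if y.2.1 then 0 else 1) (emb y.1.2) -
        if y.2.2 then 1 else 0).of_eq fun x => ?_
    unfold lv
    cases (cl x.1.1 (ι' t.2.1) (ι' t.2.2.1) x.2 t.2.2.2).1 <;> rfl
  have h2 := PT_tab S k hS (f := fun x : Inp × ℕ => x.1.2.1.1) (by fun_prop)
  have h3 := PT_fin ((h2.prodMk (h0 (fun x => x.2) (by fun_prop))).prodMk (PT_finFun _ h1 id))
    fun y => decide (∀ t, Chk e d L (y.1.1 t) (y.1.1 t) (y.1.2 t) (y.1.2 t) fun w => y.2 (t, w))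
  have h4 := PT_fin ((h2.prodMk (PT_tab S k hS (f := fun x : Inp × ℕ => x.1.2.2.1)
    (by fun_prop))).prodMk
    ((slot_PT dec (s := fun x => x.1.2.1.2) (j := fun x => x.2 / N) (by fun_prop)
      (by fun_prop)).prodMk
    (slot_PT dec (s := fun x => x.1.2.2.2) (j := fun x => x.2 / N) (by fun_prop) (by fun_prop))))
    fun y => decide (∀ t t', LChk L (y.1.1 t) (y.1.2 t') (y.2.1 t).1 (y.2.2 t').2)
  refine (PT.and' (c := fun z : Inp =>
    z.1.all fun c => decide (1 ≤ c.length) && decide (c.length ≤ 3)) (by fun_prop)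
    (PT.all (f := fun z j => decide (∀ t, Chk e d L (S z.2.1.1 t) (S z.2.1.1 t)
        (olds N (num _) (slot dec z.2.1.2) j t) (olds N (num _) (slot dec z.2.1.2) j t)
        fun w => lv (num _) (fun j => olds N (num _) (slot dec z.2.1.2) j t 0)
          (fun j => olds N (num _) (slot dec z.2.1.2) j t 1)
          (cl z.1 (ι' w.1) (ι' w.2.1) j w.2.2)) &&
      decide (∀ t t', LChk L (S z.2.1.1 t) (S z.2.2.1 t') (slot dec z.2.1.2 (j / N) t).1
        (slot dec z.2.2.2 (j / N) t').2)) (h3.and' h4)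
      (l := fun z => urange (m z.1)) (by fun_prop))).of_eq fun z => ?_
  rw [Bool.eq_iff_iff]
  simp only [ver, Test2, Test, urange, Bool.and_eq_true, List.all_eq_true, decide_eq_true_eq,
    List.mem_range]
  exact and_congr_right fun _ => ⟨fun h => ⟨fun t j hj => (h j hj).1 t, fun j hj => (h j hj).2⟩,
    fun h j hj => ⟨fun t => h.1 t j hj, h.2 j hj⟩⟩

theorem exists_ok (M : ℕ) (hF : Fintype.card F = 2 ^ (8 * 12)) :
    ∃ L ι', Ok (M := M) (F := F) 12 (128 * 2 ^ (7 * 12)) #(GS M F) L (num _) ι' := by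
  classical
  have hK : M ^ 2 * 2 ^ (8 * 12) ≤ 2 ^ (12 * (8 * (M + 1))) := by
    calc _ ≤ (2 ^ M) ^ 2 * 2 ^ (8 * 12) :=
          Nat.mul_le_mul_right _ (Nat.pow_le_pow_left Nat.lt_two_pow_self.le 2)
      _ ≤ _ := by
          rw [← pow_mul, ← pow_add]
          exact Nat.pow_le_pow_right two_pos (by omega)
  have h0 := fun u v : GG M F => hat_zero hF (M + 1) univ {u.1} (fun _ => 1) v.1
  refine ⟨fun u x => hat 12 (M + 1) univ {u.1} (fun _ => 1) x.pt, fun u => Fintype.equivFin _ u,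
    fun u i x => hat_LD hF (by norm_num) hK _ _ _ i (mem_univ _) x.pt,
    fun u => (h0 u u).trans (by simp), fun u v h => (h0 u v).trans ?_,
    fun u => card_GG (M := M) (F := F) ▸ Fin.isLt _, fun n hn => ?_⟩
  · exact if_neg fun h1 => h (Subtype.ext (mem_singleton.1 h1).symm)
  · rw [← card_GG] at hn
    simp [num, hn]

omit [CharP F 2] in
theorem exists_M (k : ℕ) (hk : 1 ≤ k) :
    ∃ M, k ≤ #(GS M F) ∧ #(GS M F) ≤ Fintype.card F ^ 4 * k := by
  have h : ∃ M, k ≤ #(GS M F) := ⟨k, GS_ge⟩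
  refine ⟨Nat.find h, Nat.find_spec h, ?_⟩
  have h1 := fun m => Nat.find_min h (m := m)
  generalize Nat.find h = n at h1
  cases n with
  | zero => exact GS_zero.le.trans (Nat.mul_pos (pow_pos Fintype.card_pos _) hk)
  | succ n => exact GS_succ.trans (Nat.mul_le_mul_left _ (not_le.1 (h1 n n.lt_succ_self)).le)

theorem main_of_field (hF : Fintype.card F = 2 ^ (8 * 12)) :
    ∃ C : ℕ, ∀ k r : ℕ, 1 ≤ r → r ≤ k →
      ∃ V : CNF × (ℕ × List Bool) × (ℕ × List Bool) → Bool, N68a2faeb.IsPolyTime V ∧ ∀ φ : CNF,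
        (φ ∈ ThreeSAT → ∃ π : Fin k → List Bool,
          (∀ i, r * (π i).length ≤ C * (csize φ + k ^ 3)) ∧
          ∀ i j : Fin k, V (φ, (i, π i), (j, π j)) = true) ∧
        (φ ∉ ThreeSAT → ∀ π : Fin k → List Bool,
          #{p : Fin k × Fin k | V (φ, (p.1, π p.1), (p.2, π p.2)) = true} ^ 2 ≤
            C * r * k ^ 3) := by
  classical
  obtain ⟨Q, hQ⟩ : ∃ Q, Q = Fintype.card F := ⟨_, rfl⟩
  have hQ1 : 2 ≤ Q := hQ ▸ Fintype.one_lt_card
  obtain ⟨c, hc⟩ : ∃ c : ℕ, c = 11 * 2 ^ 88 * Q ^ 23 := ⟨_, rfl⟩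
  obtain ⟨c₀, hc₀⟩ := disp c (by
    have : 0 < Q ^ 23 := by positivity
    omega)
  refine ⟨576 * (c₀ + 1) * Q ^ 24 * (71 * Q ^ 12) + (c + 2), fun k r hr hrk => ?_⟩
  have hk : 1 ≤ k := hr.trans hrk
  obtain ⟨M, h1, h2⟩ := exists_M (F := F) k hk
  obtain ⟨L, ι', H⟩ := exists_ok M hF
  obtain ⟨m, cl, hm, hcl, hl⟩ := layout #(GS M F) GS_pos
  obtain ⟨N, hN⟩ : ∃ N, N = #(GS M F) := ⟨_, rfl⟩
  obtain ⟨K, hK⟩ : ∃ K, K = Fintype.card (XX M F) := ⟨_, rfl⟩
  have hK' : K = N * Q ^ 8 := by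
    rw [hK, Fintype.card_prod, card_GG, Fintype.card_fun, Fintype.card_fin, hN, hQ]
  rw [← hQ, ← hN] at h2
  rw [← hN] at h1 hl H
  have q8 : N * 2 ≤ K := hK' ▸ Nat.mul_le_mul_left _ (hQ1.trans (Nat.le_self_pow (by norm_num) Q))
  obtain ⟨S, hS⟩ := hc₀ (XX M F) k r hr (by omega)
  obtain ⟨D, hD⟩ : ∃ D, D = c₀ * Fintype.card (XX M F) / r + 1 := ⟨_, rfl⟩
  have hB : 0 < 96 * (4 * K * N + 2 * K * K) * D := by
    have : 0 < K := by omega
    rw [hD]
    positivity
  have i0 : Finite (Blk M F) := finite_Blk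
  obtain ⟨dec⟩ : Nonempty ((Fin (96 * (4 * K * N + 2 * K * K) * D) → Bool) ≃
      (Fin (c₀ * Fintype.card (XX M F) / r + 1) → Blk M F)) := Finite.card_eq.1 (by
    have e1 : Nat.card F = 2 ^ 96 := Nat.card_eq_fintype_card.trans hF
    have e2 : Nat.card (XX M F) = K := Nat.card_eq_fintype_card.trans hK.symm
    have e3 : Nat.card (GG M F) = N := Nat.card_eq_fintype_card.trans (card_GG.trans hN.symm)
    simp only [Nat.card_fun, Nat.card_prod (GG M F → _), e1, e2, e3, Nat.card_fin, ← hD,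
      Nat.card_eq_fintype_card (α := Bool), Fintype.card_bool, ← pow_mul, ← pow_add]
    congr 1
    ring)
  obtain ⟨Sn, hSn⟩ : ∃ Sn : ℕ → Fin (c₀ * Fintype.card (XX M F) / r + 1) → XX M F,
    Sn = fun i t => if h : i < k then S (⟨i, h⟩, t) else emb 1 := ⟨_, rfl⟩
  have s0 : ∀ i : Fin k, Sn i = fun t => S (i, t) := fun i => by simp [hSn]
  refine ⟨ver 12 (128 * 2 ^ (7 * 12)) N L ι' dec Sn m cl,
    (ver_PT _ _ _ _ _ _ (k := k) (fun i hi => by simp [hSn, not_lt.2 hi]) hm hcl).isPolyTime,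
    fun φ => ⟨fun hφ => ?_, fun hφ π => ?_⟩⟩
  · obtain ⟨l1, l2, l3⟩ := hl φ
    have h3 : ∀ c ∈ φ, 1 ≤ c.length ∧ c.length ≤ 3 := fun c hc => by
      obtain ⟨x, hx⟩ := hφ.2
      obtain ⟨l, hl, -⟩ := hx c hc
      exact ⟨List.length_pos_of_mem hl, hφ.1 c hc⟩
    obtain ⟨R, hR⟩ := complete2 (τ := Fin (c₀ * Fintype.card (XX M F) / r + 1)) H l2
      ((l3 h3).1 hφ.2)
    choose s s1 s2 using fun i : Fin k =>
      exists_str hB dec ((m φ).n / N + 1) fun j t => R (Sn i t) j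
    refine ⟨s, fun i => ?_, fun i j => decide_eq_true ⟨h3, hR _ _ _ _ (s2 i) (s2 j)⟩⟩
    have h4 : φ.length ≤ csize φ := by
      rw [← List.length_map (f := List.length)]
      refine List.length_le_sum_of_one_le _ fun i hi => ?_
      obtain ⟨c, hc, rfl⟩ := List.mem_map.1 hi
      exact (h3 c hc).1
    have h5 : r * D ≤ (c₀ + 1) * K := by
      have := Nat.mul_div_le (c₀ * K) r
      rw [hD, ← hK, mul_add, add_mul]
      omega
    have h6 : 4 * K * N + 2 * K * K ≤ 6 * K * K := by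
      have := Nat.mul_le_mul_left (4 * K) (show N ≤ K by omega)
      linarith
    have h7 : N ^ 3 * ((m φ).n / N + 1) ≤ 71 * Q ^ 12 * (csize φ + k ^ 3) := by
      have e1 : N ^ 3 ≤ Q ^ 12 * k ^ 3 := (Nat.pow_le_pow_left h2 3).trans_eq (by ring)
      have e2 : csize φ ≤ Q ^ 12 * csize φ := Nat.le_mul_of_pos_left _ (by positivity)
      have e3 := (Nat.mul_div_le φ.length (N ^ 2)).trans h4
      calc _ = N ^ 2 * (N * ((m φ).n / N)) + N ^ 3 := by ring
        _ ≤ N ^ 2 * (70 * (φ.length / N ^ 2 + N)) + N ^ 3 :=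
            Nat.add_le_add_right (Nat.mul_le_mul_left _ ((Nat.mul_div_le _ _).trans l1)) _
        _ = 70 * (N ^ 2 * (φ.length / N ^ 2)) + 71 * N ^ 3 := by ring
        _ ≤ 71 * (Q ^ 12 * csize φ) + 71 * (Q ^ 12 * k ^ 3) := by omega
        _ = _ := by ring
    rw [s1]
    calc _ = 96 * (r * D) * (4 * K * N + 2 * K * K) * ((m φ).n / N + 1) := by ring
      _ ≤ 96 * ((c₀ + 1) * K) * (6 * K * K) * ((m φ).n / N + 1) := by gcongr
      _ = 576 * (c₀ + 1) * Q ^ 24 * (N ^ 3 * ((m φ).n / N + 1)) := by rw [hK']; ring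
      _ ≤ 576 * (c₀ + 1) * Q ^ 24 * (71 * Q ^ 12 * (csize φ + k ^ 3)) := Nat.mul_le_mul_left _ h7
      _ ≤ _ := (mul_assoc _ _ _).symm.trans_le (Nat.mul_le_mul_right _ (Nat.le_add_right _ _))
  · obtain ⟨-, l2, l3⟩ := hl φ
    by_cases h3 : ∀ c ∈ φ, 1 ≤ c.length ∧ c.length ≤ 3
    · by_contra hn
      refine hφ ⟨fun c hc => (h3 c hc).2, (l3 h3).2 (sound2 (hF ▸ by norm_num) (hF ▸ by norm_num)
        H l2 S hr (hQ ▸ hc ▸ hS) (by rw [Fintype.card_fin]; omega) (fun i => slot dec (π i))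
        (fun i l => ver 12 (128 * 2 ^ (7 * 12)) N L ι' dec Sn m cl (φ, (i, π i), (l, π l)) = true)
        (fun i l h => s0 i ▸ s0 l ▸ (of_decide_eq_true h).2) (lt_of_le_of_lt ?_ (not_le.1 hn)))⟩
      rw [Fintype.card_fin, ← hQ, ← hc]
      exact Nat.mul_le_mul_right _ (Nat.mul_le_mul_right _ (Nat.le_add_left _ _))
    · rw [filter_eq_empty_iff.2 fun p _ h => h3 (of_decide_eq_true h).1, card_empty]
      exact Nat.zero_le _

theorem main :
    ∃ C : ℕ, ∀ k r : ℕ, 1 ≤ r → r ≤ k →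
      ∃ V : CNF × (ℕ × List Bool) × (ℕ × List Bool) → Bool, N68a2faeb.IsPolyTime V ∧ ∀ φ : CNF,
        (φ ∈ ThreeSAT → ∃ π : Fin k → List Bool,
          (∀ i, r * (π i).length ≤ C * (csize φ + k ^ 3)) ∧
          ∀ i j : Fin k, V (φ, (i, π i), (j, π j)) = true) ∧
        (φ ∉ ThreeSAT → ∀ π : Fin k → List Bool,
          #{p : Fin k × Fin k | V (φ, (p.1, π p.1), (p.2, π p.2)) = true} ^ 2 ≤
            C * r * k ^ 3) := by
  have : Fact (Nat.Prime 2) := ⟨Nat.prime_two⟩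
  let _ : Fintype (GaloisField 2 96) := Fintype.ofFinite _
  refine main_of_field (F := GaloisField 2 96) ?_
  rw [← Nat.card_eq_fintype_card, GaloisField.card 2 96 (by norm_num)]

end Pool.Agent.Lib.MP_45faa6_lc.DP
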