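import Pool.Agent.Lib.MP_45faa6_lc.TR.Joint

/-!
Rows and columns that agree at most pairs come from one word of the tensor code.
-/

set_option autoImplicit false

namespace Pool.Agent.Lib.MP_45faa6_lc.DP

open Finset Pool.Agent.Lib.MP_45faa6_lc.NL Pool.Agent.Lib.MP_45faa6_lc.TR

/-- Membership in a subspace passes from most points to all points. -/
theorem lin_transfer {κ X F : Type} [Field F] [Fintype κ] (W : Submodule F (κ → F))
    (A : Submodule F (X → F)) (U : Finset X) (hA : ∀ w ∈ A, (∀ x ∉ U, w x = 0) → ∀ x, w x = 0)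
    (g : κ → X → F) (hg : ∀ c, g c ∈ A) (h : ∀ x ∉ U, (fun c => g c x) ∈ W) (x : X) :
    (fun c => g c x) ∈ W := by
  classical
  rw [← Subspace.forall_mem_dualAnnihilator_apply_eq_zero_iff]
  intro φ hφ
  have key : ∀ y, φ (fun c => g c y) =
      (∑ c, (φ fun j => if c = j then 1 else 0) • g c) y := fun y => by
    rw [LinearMap.pi_apply_eq_sum_univ, Finset.sum_apply]
    exact sum_congr rfl fun c _ => mul_comm _ _
  rw [key]
  refine hA _ (A.sum_mem fun c _ => A.smul_mem _ (hg c)) (fun y hy => ?_) x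
  rw [← key]
  exact (Submodule.mem_dualAnnihilator φ).1 hφ _ (h y hy)

/-- Low degree functions as a subspace. -/
def LDs (F : Type) [Field F] (d : ℕ) : Submodule F (F → F) where
  carrier := {φ | LD d φ}
  add_mem' h h' := LD.add h h'
  zero_mem' := LD.const d 0
  smul_mem' c _ h := ((LD.const 0 c).mul h).mono (zero_add d).le

theorem markov {Ω : Type} [Fintype Ω] (f : Ω → ℕ) (N c : ℕ) :
    N * #{b | N ≤ c * f b} ≤ c * ∑ b, f b := by
  rw [mul_comm, ← smul_eq_mul, mul_sum]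
  exact (card_nsmul_le_sum _ _ _ fun b hb => (mem_filter.1 hb).2).trans
    (sum_le_sum_of_subset (subset_univ _))

variable {M : ℕ} {F : Type} [Field F] [CharP F 2]

/-- The code of degree `d`. -/
def TT (M : ℕ) (F : Type) [Field F] [CharP F 2] (e d : ℕ) : Submodule F (XX M F → F) where
  carrier := {w | ∀ i x, LD d fun c => w ((mvX e i).act c x)}
  add_mem' h h' i x := LD.add (h i x) (h' i x)
  zero_mem' _ _ := LD.const d 0
  smul_mem' c _ h i x := by simpa using (LD.const 0 c).mul (h i x)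

theorem TT_mono (e : ℕ) {d d' : ℕ} (h : d ≤ d') : TT M F e d ≤ TT M F e d' :=
  fun _ hw i x => (hw i x).mono h

variable [Fintype F] [DecidableEq F]

theorem TT_dist {e D : ℕ} (hQ : 2 ^ 90 ≤ Fintype.card F) (hD : 4 * D ≤ Fintype.card F)
    (U : Finset (XX M F)) (hU : 16 * #U < #(GS M F)) :
    ∀ w ∈ TT M F e D, (∀ x ∉ U, w x = 0) → ∀ x, w x = 0 := fun w hw h =>
  zero_of_sparse e D hQ hD w (fun i _ => hw i) (lt_of_le_of_lt (Nat.mul_le_mul_left _
    (card_le_card fun x hx => by_contra fun hn => (mem_filter.1 hx).2 (h x hn))) hU)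

theorem tensor {e d : ℕ} (hQ : 2 ^ 90 ≤ Fintype.card F) (hd : 16 * d ≤ Fintype.card F)
    (A : Submodule F (XX M F → F)) (hA : A ≤ TT M F e (4 * d)) (m : ℕ)
    (R C : XX M F → ℕ → XX M F → F) (E : Finset (XX M F × XX M F))
    (hE : 2 ^ 88 * Fintype.card F ^ 7 * #E ≤ #(GS M F) ^ 2)
    (h : ∀ a b, (a, b) ∉ E → ∀ j < m, R a j ∈ TT M F e d ∧ C b j ∈ A ∧ R a j b = C b j a) :
    ∃ (W : XX M F → ℕ → XX M F → F) (D : Finset (XX M F)), 32 * #D < #(GS M F) ∧
      (∀ a j, W a j ∈ TT M F e d) ∧ (∀ b, ∀ j < m, (fun a => W a j b) ∈ A) ∧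
      ∀ a ∉ D, (∃ b, (a, b) ∉ E) ∧ ∀ j < m, R a j = W a j ∧ ∀ b, C a j b = W b j a := by
  classical
  obtain ⟨N, hN⟩ : ∃ N, N = #(GS M F) := ⟨_, rfl⟩
  obtain ⟨Q, hQ'⟩ : ∃ Q, Q = Fintype.card F := ⟨_, rfl⟩
  have hN0 : 0 < N := hN ▸ GS_pos
  have hQ0 : 1 ≤ Q := hQ' ▸ Fintype.card_pos
  have hNK : N ≤ Fintype.card (XX M F) := by
    rw [Fintype.card_prod, card_GG, ← hN]
    exact Nat.le_mul_of_pos_right _ Fintype.card_pos
  have small : ∀ f : XX M F → ℕ, ∑ b, f b = #E →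
      2 ^ 83 * (Q ^ 6 * #{b | N ≤ 32 * Q * f b}) ≤ N := fun f hf => by
    have h1 := markov f N (32 * Q)
    rw [hf] at h1
    rw [← hN, ← hQ'] at hE
    refine Nat.le_of_mul_le_mul_left ?_ hN0
    calc _ = 2 ^ 83 * Q ^ 6 * (N * #{b | N ≤ 32 * Q * f b}) := by ring
      _ ≤ 2 ^ 83 * Q ^ 6 * (32 * Q * #E) := Nat.mul_le_mul_left _ h1
      _ = 2 ^ 88 * Q ^ 7 * #E := by ring
      _ ≤ _ := by rwa [← sq]
  have sumE : ∑ a, ∑ b, (if (a, b) ∈ E then 1 else 0) = #E := by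
    rw [← Fintype.sum_prod_type', sum_ite_mem, univ_inter, card_eq_sum_ones]
  have hcb := small (fun b => #{a | (a, b) ∈ E}) (by
    simp only [card_filter]
    rw [sum_comm]
    convert sumE)
  have hrb := small (fun a => #{b | (a, b) ∈ E}) (by
    simp only [card_filter]
    convert sumE)
  obtain ⟨Sc, hcb'⟩ : ∃ Sc : Finset (XX M F),
    Sc = univ.filter fun b => N ≤ 32 * Q * #{a | (a, b) ∈ E} := ⟨_, rfl⟩
  obtain ⟨Sr, hrb'⟩ : ∃ Sr : Finset (XX M F),
    Sr = univ.filter fun a => N ≤ 32 * Q * #{b | (a, b) ∈ E} := ⟨_, rfl⟩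
  rw [← hcb'] at hcb
  rw [← hrb'] at hrb
  have hc : ∀ b ∉ Sc, 32 * Q * #{a | (a, b) ∈ E} < N := fun b hb =>
    not_le.1 fun h1 => hb (hcb' ▸ mem_filter.2 ⟨mem_univ _, h1⟩)
  have hr : ∀ a ∉ Sr, 32 * Q * #{b | (a, b) ∈ E} < N := fun b hb =>
    not_le.1 fun h1 => hb (hrb' ▸ mem_filter.2 ⟨mem_univ _, h1⟩)
  have ex : ∀ S : Finset (XX M F), 32 * Q * #S < N → 32 * #S < N ∧ ∃ a, a ∉ S := fun S hS => by
    have h1 : 32 * #S ≤ 32 * Q * #S := Nat.mul_le_mul_right _ (by omega)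
    refine ⟨by omega, by_contra fun hn => ?_⟩
    have h2 : Fintype.card (XX M F) ≤ #S :=
      card_le_card (s := univ) fun a _ => by_contra fun h3 => hn ⟨a, h3⟩
    omega
  have hC : ∀ b ∉ Sc, ∀ j < m, C b j ∈ A := fun b hb j hj => by
    obtain ⟨a, ha⟩ := (ex _ (hc b hb)).2
    exact (h a b (by simpa using ha) j hj).2.1
  obtain ⟨W, D, w1, w2, w3⟩ := decode_all (M := M) e d hQ hd (univ ×ˢ range m)
    (fun k : XX M F × ℕ => fun b => C b k.2 k.1)
    (((univ : Finset (Fin 8 × F)) ×ˢ Sc).image fun p => (mvX e p.1.1).act p.1.2 p.2)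
    (8 * Q * #Sc) (by
      refine card_image_le.trans ?_
      rw [card_product, card_univ, Fintype.card_prod, Fintype.card_fin, hQ'])
    (fun x hx k hk i => by
      have hj : k.2 < m := mem_range.1 (mem_product.1 hk).2
      have h1 : ∀ c, (mvX e i).act c x ∉ Sc := fun c hc' => hx (mem_image.2
        ⟨((i, -c), _), mem_product.2 ⟨mem_univ _, hc'⟩, by
          rw [← Act.add, neg_add_cancel, Act.zero]⟩)
      refine lin_transfer (LDs F d) A
        (univ.biUnion fun c : F => {a | (a, (mvX e i).act c x) ∈ E})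
        (fun w hw => TT_dist hQ (by omega) _ ?_ w (hA hw))
        (fun c => C ((mvX e i).act c x) k.2) (fun c => hC _ (h1 c) _ hj) (fun a ha => ?_) k.1
      · have h2 := sum_lt_sum_of_nonempty (s := univ) univ_nonempty fun c _ => hc _ (h1 c)
        rw [← mul_sum, sum_const, card_univ, ← hQ', smul_eq_mul, mul_comm 32 Q, mul_assoc] at h2
        have h3 := Nat.lt_of_mul_lt_mul_left h2
        have h4 := card_biUnion_le (s := univ)
          (t := fun c : F => ({a | (a, (mvX e i).act c x) ∈ E} : Finset (XX M F)))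
        omega
      · have h2 : ∀ c, (a, (mvX e i).act c x) ∉ E := fun c h3 =>
          ha (mem_biUnion.2 ⟨c, mem_univ _, mem_filter.2 ⟨mem_univ _, h3⟩⟩)
        exact ((h _ _ (h2 0) _ hj).1 i x).congr fun c => (h _ _ (h2 c) _ hj).2.2.symm)
    (by
      rw [← hQ', ← hN]
      exact le_of_eq_of_le (by ring) hcb)
  have w4 : #D ≤ 16896 * (Q ^ 6 * #Sc) := w2.trans_eq (by rw [← hQ']; ring)
  have q1 : ∀ n, n ≤ Q ^ 6 * n := fun n => Nat.le_mul_of_pos_left _ (by positivity)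
  have q2 := q1 #Sc
  have q3 := q1 #Sr
  have w5 : ∀ b ∉ D, ∀ j < m, ∀ a, W (a, j) b = C b j a := fun b hb j hj a =>
    w3 b hb (a, j) (mem_product.2 ⟨mem_univ _, mem_range.2 hj⟩)
  refine ⟨fun a j => W (a, j), D ∪ Sc ∪ Sr, ?_, fun a j => w1 _, fun b j hj => ?_, fun a ha => ?_⟩
  · have := card_union_le (D ∪ Sc) Sr
    have := card_union_le D Sc
    omega
  · refine lin_transfer A (TT M F e d) (D ∪ Sc) (TT_dist hQ (by omega) _ ?_)
      (fun a => W (a, j)) (fun a => w1 _) (fun y hy => ?_) b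
    · have := card_union_le D Sc
      omega
    · rw [mem_union, not_or] at hy
      exact (funext (w5 y hy.1 j hj)).symm ▸ hC y hy.2 j hj
  · simp only [mem_union, not_or] at ha
    obtain ⟨h1, b, hb⟩ := ex _ (hr a ha.2)
    have hb' : (a, b) ∉ E := by simpa using hb
    refine ⟨⟨b, hb'⟩, fun j hj => ⟨funext fun y => sub_eq_zero.1 ?_,
      fun y => (w5 a ha.1.1 j hj y).symm⟩⟩
    refine TT_dist (e := e) (D := d) hQ (by omega) (D ∪ univ.filter fun b => (a, b) ∈ E) ?_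
      (R a j - W (a, j))
      (sub_mem (h a b hb' j hj).1 (w1 _)) (fun x hx => ?_) y
    · have := card_union_le D {b | (a, b) ∈ E}
      omega
    · rw [mem_union, not_or] at hx
      rw [Pi.sub_apply, w5 x hx.1 j hj, (h a x (by simpa using hx.2) j hj).2.2, sub_self]

end Pool.Agent.Lib.MP_45faa6_lc.DP
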